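import Pool.Agent.Helper19.AAR.Dual
import Pool.Agent.Helper19.Sign.Gal

/-!
# AAR: normal subgroups of small index contain sign changes
-/

open Finset

namespace Pool.Agent.Helper19.AAR

open Pool.Agent.Helper19.Sign (InCore exists_sgn)

section

variable {G S I : Type} [Group G] [MulAction G S] {ι : S → S}

theorem inCore_inv (hι : ∀ x, ι (ι x) = x) {σ : G} (hσ : InCore ι σ) : InCore ι σ⁻¹ := by
  intro x
  rcases hσ (σ⁻¹ • x) with h | h
  · left
    rw [smul_inv_smul] at h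
    exact h.symm
  · right
    rw [smul_inv_smul] at h
    have := congrArg ι h
    rw [hι] at this
    exact this.symm

variable [Fintype S]

theorem exists_flips (hι : ∀ x, ι (ι x) = x) (hfix : ∀ x, ι x ≠ x)
    (hcomm : ∀ (g : G) (x : S), g • ι x = ι (g • x)) (p : S → I)
    (hpι : ∀ x, p (ι x) = p x) (i : I)
    (hs : ∀ x, p x = i → ∃ σ : G, σ • x = ι x ∧ ∀ y, y ≠ x → y ≠ ι x → σ • y = y)
    (U : S → ℤ) (hUι : ∀ x, U (ι x) = - U x) (T : Finset S)
    (hT : ∀ x ∈ T, p x = i ∧ 0 < U x) :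
    ∃ σ : G, InCore ι σ ∧ (∀ y, p y ≠ i → σ • y = y) ∧
      ∀ x, 0 < U x → (σ • x = ι x ↔ x ∈ T) := by
  classical
  induction T using Finset.induction_on with
  | empty =>
    refine ⟨1, fun x => Or.inl (one_smul _ x), fun y _ => one_smul _ y, fun x _ => ?_⟩
    rw [one_smul]
    simp [(hfix x).symm]
  | insert b T hb ih =>
    obtain ⟨σ, h1, h2, h3⟩ := ih fun x hx => hT x (mem_insert_of_mem hx)
    obtain ⟨hpb, hUb⟩ := hT b (mem_insert_self _ _)
    obtain ⟨s, hs1, hs2⟩ := hs b hpb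
    have hsι : s • ι b = b := by rw [hcomm, hs1, hι]
    have hsc : InCore ι s := by
      intro x
      by_cases hx : x = b
      · right; rw [hx, hs1]
      · by_cases hx' : x = ι b
        · right; rw [hx', hsι, hι]
        · exact Or.inl (hs2 x hx hx')
    refine ⟨s * σ, inCore_mul hι hcomm hsc h1, fun y hy => ?_, fun x hx => ?_⟩
    · rw [mul_smul, h2 y hy]
      refine hs2 y ?_ ?_
      · rintro rfl
        exact hy hpb
      · rintro rfl
        rw [hpι] at hy
        exact hy hpb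
    · rw [mul_smul, mem_insert]
      have hσb : σ • b = b := by
        refine (h1 b).resolve_right fun h => ?_
        exact hb ((h3 b hUb).1 h)
      by_cases hxb : x = b
      · subst hxb
        simp [hσb, hs1]
      · have hxb' : x ≠ ι b := by
          rintro rfl
          rw [hUι] at hx
          omega
        have hιxb : ι x ≠ b := by
          intro h
          exact hxb' (by rw [← h, hι])
        have hιxb' : ι x ≠ ι b := by
          intro h
          have := congrArg ι h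
          rw [hι, hι] at this
          exact hxb this
        rcases h1 x with h | h
        · rw [h, hs2 x hxb hxb']
          have h4 : ¬ (σ • x = ι x) := by
            rw [h]; exact (hfix x).symm
          have h5 : x ∉ T := fun h6 => h4 ((h3 x hx).2 h6)
          simp [(hfix x).symm, hxb, h5]
        · rw [h, hs2 _ hιxb hιxb']
          have h5 : x ∈ T := (h3 x hx).1 h
          simp [h5]

/-- A normal subgroup of index less than `2 ^ g` contains, for every `x₀` of the fibre of `i`, a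
sign change which moves `x₀` and fixes the other fibres. -/
theorem exists_flip_normal (hι : ∀ x, ι (ι x) = x) (hfix : ∀ x, ι x ≠ x)
    (hcomm : ∀ (g : G) (x : S), g • ι x = ι (g • x)) (p : S → I)
    (hp : ∀ (g : G) (x : S), p (g • x) = p x) (hpι : ∀ x, p (ι x) = p x) (i : I)
    (htr : ∀ x y, p x = i → p y = i → ∃ g : G, g • x = y)
    (hs : ∃ x, p x = i ∧ ∃ σ : G, σ • x = ι x ∧ ∀ y, y ≠ x → y ≠ ι x → σ • y = y)
    (H : Subgroup G) [H.Normal] (hH0 : H.index ≠ 0) (g : ℕ)
    (hg : Nat.card {x : S // p x = i} = 2 * g) (hH : H.index < 2 ^ g)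
    (x₀ : S) (hx₀ : p x₀ = i) :
    ∃ τ ∈ H, InCore ι τ ∧ τ • x₀ = ι x₀ ∧ ∀ y, p y ≠ i → τ • y = y := by
  classical
  -- single sign changes everywhere
  have hs' : ∀ x, p x = i → ∃ σ : G, σ • x = ι x ∧ ∀ y, y ≠ x → y ≠ ι x → σ • y = y := by
    obtain ⟨x₁, hx₁, σ, hσ1, hσ2⟩ := hs
    intro x hx
    obtain ⟨τ, hτ⟩ := htr x₁ x hx₁ hx
    have hτ' : τ⁻¹ • x = x₁ := by rw [← hτ, inv_smul_smul]
    refine ⟨τ * σ * τ⁻¹, ?_, fun y hy hy' => ?_⟩
    · rw [mul_smul, mul_smul, hτ', hσ1, hcomm, hτ]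
    · rw [mul_smul, mul_smul, hσ2 (τ⁻¹ • y) ?_ ?_, smul_inv_smul]
      · intro h
        apply hy
        rw [← hτ, ← h, smul_inv_smul]
      · intro h
        apply hy'
        rw [← hτ, ← hcomm, ← h, smul_inv_smul]
  obtain ⟨U, hU0, hUι⟩ := exists_sgn hι hfix
  set R : Finset S := univ.filter fun x => p x = i ∧ 0 < U x with hR
  have hRc : R.card = g := by
    have h1 := Disc.card_pair hι U hU0 hUι (univ.filter fun x => p x = i) (by
      intro x hx
      rw [mem_filter] at hx ⊢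
      exact ⟨mem_univ _, by rw [hpι]; exact hx.2⟩)
    have h2 : (univ.filter fun x : S => p x = i).card = 2 * g := by
      rw [← hg, Nat.card_eq_fintype_card, Fintype.card_subtype]
    have h3 : ((univ.filter fun x : S => p x = i).filter fun x => 0 < U x) = R := by
      rw [filter_filter]
    rw [h2, h3] at h1
    omega
  choose f hf1 hf2 hf3 using fun T : {T : Finset S // ∀ x ∈ T, p x = i ∧ 0 < U x} =>
    exists_flips hι hfix hcomm p hpι i hs' U hUι T.1 T.2
  have hfi : H.FiniteIndex := ⟨hH0⟩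
  have hfin : Finite (G ⧸ H) := inferInstance
  have : Fintype (G ⧸ H) := Fintype.ofFinite _
  have hmem : ∀ T ∈ R.powerset, ∀ x ∈ T, p x = i ∧ 0 < U x := by
    intro T hT x hx
    have := mem_powerset.1 hT hx
    rw [hR, mem_filter] at this
    exact this.2
  obtain ⟨⟨T, hT⟩, _, ⟨T', hT'⟩, _, hne, heq⟩ :=
    Finset.exists_ne_map_eq_of_card_lt_of_maps_to (s := R.powerset.attach)
      (t := (univ : Finset (G ⧸ H)))
      (f := fun T => ((f ⟨T.1, hmem T.1 T.2⟩ : G) : G ⧸ H)) (by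
        rw [card_attach, card_powerset, hRc, card_univ, ← Nat.card_eq_fintype_card]
        exact hH) (fun _ _ => mem_univ _)
  have hne' : T ≠ T' := fun h => hne (by simp [h])
  set a := f ⟨T, hmem T hT⟩ with ha
  set b := f ⟨T', hmem T' hT'⟩ with hb
  have hab : a⁻¹ * b ∈ H := QuotientGroup.eq.1 heq
  have hac := hf1 ⟨T, hmem T hT⟩
  have hbc := hf1 ⟨T', hmem T' hT'⟩
  have ha3 := hf3 ⟨T, hmem T hT⟩
  have hb3 := hf3 ⟨T', hmem T' hT'⟩
  have hτc : InCore ι (a⁻¹ * b) := inCore_mul hι hcomm (inCore_inv hι hac) hbc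
  have hfixo : ∀ y, p y ≠ i → (a⁻¹ * b) • y = y := by
    intro y hy
    rw [mul_smul, hf2 ⟨T', hmem T' hT'⟩ y hy, inv_smul_eq_iff, hf2 ⟨T, hmem T hT⟩ y hy]
  obtain ⟨x₁, hx₁, hmv⟩ : ∃ x₁, p x₁ = i ∧ (a⁻¹ * b) • x₁ = ι x₁ := by
    have hsym : ∃ x, (x ∈ T ∧ x ∉ T') ∨ (x ∉ T ∧ x ∈ T') := by
      by_contra hcon
      push Not at hcon
      apply hne'
      ext x
      obtain ⟨h1, h2⟩ := hcon x
      constructor
      · exact h1
      · intro h3
        by_contra h4
        exact h2 h4 h3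
    obtain ⟨x, hx⟩ := hsym
    rcases hx with ⟨h1, h2⟩ | ⟨h1, h2⟩
    · obtain ⟨hpx, hUx⟩ := hmem T hT x h1
      refine ⟨x, hpx, ?_⟩
      have h3 : a • x = ι x := (ha3 x hUx).2 h1
      have h4 : b • x = x := (hbc x).resolve_right fun h => h2 ((hb3 x hUx).1 h)
      rw [mul_smul, h4, inv_smul_eq_iff, hcomm, h3, hι]
    · obtain ⟨hpx, hUx⟩ := hmem T' hT' x h2
      refine ⟨x, hpx, ?_⟩
      have h3 : b • x = ι x := (hb3 x hUx).2 h2
      have h4 : a • x = x := (hac x).resolve_right fun h => h1 ((ha3 x hUx).1 h)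
      rw [mul_smul, h3, inv_smul_eq_iff, hcomm, h4]
  obtain ⟨τ, hτ⟩ := htr x₁ x₀ hx₁ hx₀
  have hτ' : τ⁻¹ • x₀ = x₁ := by rw [← hτ, inv_smul_smul]
  refine ⟨τ * (a⁻¹ * b) * τ⁻¹, Subgroup.Normal.conj_mem inferInstance _ hab τ, ?_, ?_, ?_⟩
  · intro x
    rw [mul_smul, mul_smul]
    rcases hτc (τ⁻¹ • x) with h | h
    · left; rw [h, smul_inv_smul]
    · right; rw [h, hcomm, smul_inv_smul]
  · rw [mul_smul, mul_smul, hτ', hmv, hcomm, hτ]
  · intro y hy
    rw [mul_smul, mul_smul, hfixo (τ⁻¹ • y) (by rwa [hp]), smul_inv_smul]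

end

end Pool.Agent.Helper19.AAR
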