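import Pool.Agent.Helper19.AAR.Flip
import Pool.Agent.Helper19.AAR.Pigeon
import Pool.Agent.Helper19.Sign.ArithCore

/-!
# AAR: relations over a number field
-/

open Polynomial Finset

namespace Pool.Agent.Helper19.AAR

open Pool.Agent.Helper19.Sign
open Disc (roots Rt mem_roots' stab_roots roots_map_eq exists_conj)

theorem theoremR (I : Type) [Fintype I] (c : I → ℤ) (hc : ∀ i, c i ≠ 0) (h : I → ℤ[X])
    (hm : ∀ i, (h i).Monic) (hirr' : ∀ i, Irreducible ((h i).map (Int.castRingHom ℚ)))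
    (hd : ∀ i, 2 ≤ (h i).natDegree)
    (hℓ : ∀ i, ∃ ℓ : ℕ, ℓ.Prime ∧ (∀ j, ((h j).map (Int.castRingHom (ZMod ℓ))).Separable) ∧
      Odd (padicValInt ℓ ((h i).resultant (X ^ 2 - C (4 * c i)))) ∧
      ∀ j, j ≠ i → ¬ (ℓ : ℤ) ∣ (h j).resultant (X ^ 2 - C (4 * c j)))
    (L : Type) [Field L] [NumberField L] [IsGalois ℚ L]
    (hsplit : ∀ i, ((qw (c i) (h i)).map (algebraMap ℚ L)).Splits)
    (H : Subgroup (L ≃ₐ[ℚ] L)) (hnor : H.Normal)
    (n : I → L → ℤ) (N : ℕ) (hN : N ≠ 0)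
    (hrel : ∀ σ ∈ H, σ ((∏ i, ∏ β ∈ roots (qw (c i) (h i)) L, β ^ n i β) ^ N) =
      (∏ i, ∏ β ∈ roots (qw (c i) (h i)) L, β ^ n i β) ^ N)
    (i : I) (hH : H.index < 2 ^ (h i).natDegree) :
    ∀ β ∈ roots (qw (c i) (h i)) L, n i β = n i ((c i : L) / β) := by
  classical
  intro β₀ hβ₀
  have hirr : ∀ i, Irreducible (qw (c i) (h i)) := by
    intro i
    obtain ⟨ℓ, hℓp, _, hodd, _⟩ := hℓ i
    exact irreducible_qw (hc i) (hm i) (hirr' i) hℓp hodd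
  -- the set with its action
  have hPne : ∀ i, qw (c i) (h i) ≠ 0 := fun i => (hirr i).ne_zero
  let S : Type := Σ i, Rt L (qw (c i) (h i))
  let act' : MulAction (L ≃ₐ[ℚ] L) S := Disc.actSigma hPne
  have hSext : ∀ x y : S, x.1 = y.1 → x.2.1 = y.2.1 → x = y := by
    rintro ⟨i, x, hx⟩ ⟨j, y, hy⟩ h1 h2
    obtain rfl : i = j := h1
    obtain rfl : x = y := h2
    rfl
  have hx0 : ∀ x : S, x.2.1 ≠ 0 := fun x => qw_root_ne_zero (hm x.1) (hirr x.1) x.2.2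
  have hcL : ∀ i, (c i : L) ≠ 0 := fun i => by exact_mod_cast hc i
  have hsym : ∀ i, ∀ β ∈ roots (qw (c i) (h i)) L, (c i : L) / β ∈ roots (qw (c i) (h i)) L := by
    intro i β hβ
    have h1 := qw_root_ne_zero (hm i) (hirr i) hβ
    rw [mem_qw (hm i) (hPne i) (div_ne_zero (hcL i) h1), div_div_cancel₀ (hcL i), add_comm]
    exact (mem_qw (hm i) (hPne i) h1).1 hβ
  have hact : ∀ (σ : L ≃ₐ[ℚ] L) (x : S), (σ • x).1 = x.1 ∧ (σ • x).2.1 = σ x.2.1 :=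
    fun _ _ => ⟨rfl, rfl⟩
  let ι : S → S := fun x => ⟨x.1, ⟨(c x.1 : L) / x.2.1, hsym x.1 x.2.1 x.2.2⟩⟩
  have hι' : ∀ x : S, (ι x).1 = x.1 ∧ (ι x).2.1 = (c x.1 : L) / x.2.1 := fun _ => ⟨rfl, rfl⟩
  have hι : ∀ x : S, ι (ι x) = x := by
    intro x
    refine hSext (ι (ι x)) x rfl ?_
    show (c x.1 : L) / ((c x.1 : L) / x.2.1) = x.2.1
    rw [div_div_cancel₀ (hcL x.1)]
  have hcomm : ∀ (g : L ≃ₐ[ℚ] L) (x : S), g • ι x = ι (g • x) := by
    intro g x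
    refine hSext (g • ι x) (ι (g • x)) rfl ?_
    show g ((c x.1 : L) / x.2.1) = (c x.1 : L) / g x.2.1
    rw [map_div₀, map_intCast]
  have hfix' : ∀ x : S, x.2.1 ^ 2 ≠ (c x.1 : L) := fun x =>
    sq_ne_of_degree (hm x.1) (hirr x.1) (hd x.1) x.2.2 (c x.1)
  have hfix : ∀ x : S, ι x ≠ x := by
    intro x h1
    apply hfix' x
    have h2 : (c x.1 : L) / x.2.1 = x.2.1 := congrArg (fun y : S => y.2.1) h1
    rw [div_eq_iff (hx0 x)] at h2
    rw [h2]; ring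
  obtain ⟨ℓ, hℓp, hsep, hodd, hndvd⟩ := hℓ i
  obtain ⟨x₁, hx₁, σ₁, hσ₁, hσ₁'⟩ := exists_flip I c hc h hm hirr L hsplit hact ι hι'
    hι hcomm hfix hfix' i ℓ hℓp hsep hodd hndvd
  let x₀ : S := ⟨i, ⟨β₀, hβ₀⟩⟩
  have hcard : Nat.card {x : S // x.1 = i} = 2 * (h i).natDegree := by
    have h1 : {x : S // x.1 = i} ≃ Rt L (qw (c i) (h i)) :=
      { toFun := fun x => x.2 ▸ x.1.2
        invFun := fun y => ⟨⟨i, y⟩, rfl⟩
        left_inv := by rintro ⟨⟨j, y⟩, rfl⟩; rfl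
        right_inv := fun y => rfl }
    rw [Nat.card_congr h1]
    have h2 : Nat.card (Rt L (qw (c i) (h i))) = (roots (qw (c i) (h i)) L).card := by
      rw [Nat.card_eq_fintype_card]
      exact Fintype.card_coe (roots (qw (c i) (h i)) L)
    rw [h2, (roots_map_eq (hirr i) (hsplit i)).2, qw, (weil_monic (c i) (h i) (hm i)).1.natDegree_map,
      (weil_monic (c i) (h i) (hm i)).2]
  have htr : ∀ x y : S, x.1 = i → y.1 = i → ∃ g : L ≃ₐ[ℚ] L, g • x = y := by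
    rintro ⟨j, x⟩ ⟨j', y⟩ hj hj'
    obtain rfl : j = i := hj
    obtain rfl : j' = j := hj'
    obtain ⟨τ, hτ⟩ := exists_conj (hirr j') x y
    exact ⟨τ, hSext _ _ rfl hτ⟩
  have hH0 : H.index ≠ 0 := Subgroup.index_ne_zero_of_finite
  obtain ⟨τ, hτH, hτc, hτx, hτo⟩ := exists_flip_normal (G := L ≃ₐ[ℚ] L) (S := S) hι hfix hcomm
    (fun x => x.1) (fun g x => rfl) (fun x => rfl) i htr ⟨x₁, hx₁, σ₁, hσ₁, hσ₁'⟩
    H hH0 (h i).natDegree hcard hH x₀ rfl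
  have hτβ : τ β₀ = (c i : L) / β₀ := by
    have h1 : (τ • x₀).2.1 = (ι x₀).2.1 := by rw [hτx]
    exact h1
  have hβ0 : β₀ ≠ 0 := hx0 x₀
  have hτβ' : τ ((c i : L) / β₀) = β₀ := by
    rw [map_div₀, map_intCast, hτβ, div_div_cancel₀ (hcL i)]
  have hinv1 : τ⁻¹ β₀ = (c i : L) / β₀ := by
    apply τ.injective
    rw [hτβ']
    exact τ.apply_symm_apply β₀
  have hinv2 : τ⁻¹ ((c i : L) / β₀) = β₀ := by
    apply τ.injective
    rw [hτβ]
    exact τ.apply_symm_apply _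
  -- the relation for `n ∘ τ⁻¹ - n`
  set w : L := ∏ i, ∏ β ∈ roots (qw (c i) (h i)) L, β ^ n i β with hw
  have hw0 : w ≠ 0 := prod_ne_zero_iff.2 fun j _ => prod_ne_zero_iff.2 fun β hβ =>
    zpow_ne_zero _ (qw_root_ne_zero (hm j) (hirr j) hβ)
  have hτw : τ w = ∏ i, ∏ β ∈ roots (qw (c i) (h i)) L, β ^ n i (τ⁻¹ β) := by
    rw [hw, map_prod]
    refine prod_congr rfl fun j _ => ?_
    rw [map_prod]
    refine prod_bij' (fun β _ => τ β) (fun β _ => τ⁻¹ β) (fun β hβ => stab_roots (hPne j) τ hβ)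
      (fun β hβ => stab_roots (hPne j) τ⁻¹ hβ) (fun β _ => τ.symm_apply_apply β)
      (fun β _ => τ.apply_symm_apply β) fun β _ => ?_
    have h1 : τ⁻¹ (τ β) = β := τ.symm_apply_apply β
    rw [h1, map_zpow₀]
  have hτwN : (τ w) ^ N = w ^ N := by
    rw [← map_pow]
    exact hrel τ hτH
  have hrel' : (∏ i, ∏ β ∈ roots (qw (c i) (h i)) L, β ^ (n i (τ⁻¹ β) - n i β)) ^ N =
      algebraMap ℚ L 1 := by
    have h1 : ∏ i, ∏ β ∈ roots (qw (c i) (h i)) L, β ^ (n i (τ⁻¹ β) - n i β) = τ w / w := by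
      rw [hτw, hw, ← prod_div_distrib]
      refine prod_congr rfl fun j _ => ?_
      rw [← prod_div_distrib]
      refine prod_congr rfl fun β hβ => ?_
      rw [zpow_sub₀ (qw_root_ne_zero (hm j) (hirr j) hβ)]
    rw [h1, div_pow, hτwN, div_self (pow_ne_zero _ hw0), map_one]
  have h4 := theoremB' I c hc h hm hirr' hℓ L hsplit
    (fun i hdi => by have := hd i; omega)
    (fun i β => n i (τ⁻¹ β) - n i β) N hN 1 hrel' i β₀ hβ₀
  simp only [hinv1, hinv2] at h4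
  omega

end Pool.Agent.Helper19.AAR
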