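import Pool.Agent.Helper19.AAT.Resid
import Pool.Agent.Helper19.AAR.RelF

/-!
# AAR: nice and fine tuples have no relations over small number fields
-/

open Polynomial

namespace Pool.Agent.Helper19.AAR

open Pool.Agent.Helper84.AA (IsTrace traceSet frob)
open Pool.Agent.Helper19.AAT (NiceAt FineAt)
open Pool.Agent.Helper19.Sign (qw weil weil_monic irreducible_qw)
open Helper19.Disc (roots mem_roots')

/-- The field generated by the complex roots of `f`. -/
noncomputable def splitF (f : ℤ[X]) : IntermediateField ℚ ℂ :=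
  IntermediateField.adjoin ℚ {z : ℂ | aeval z f = 0}

/-- All the polynomials `T ^ g h_i(T + q / T)` are irreducible, and for every number field `F`
generated by the roots of an integral polynomial and every `i` with `[F : ℚ] < 2 ^ (deg h_i)`: if a
monomial in the roots of all these polynomials has a power in `F`, then its exponents at the
roots `z` and `q / z` of the `i`-th polynomial are equal. -/
def GoodR (q : ℕ) {k : ℕ} (h : Fin k → ℤ[X]) : Prop :=
  (∀ i, Irreducible (frob q (h i))) ∧ ∀ f : ℤ[X], f ≠ 0 → ∀ (n : Fin k → ℂ → ℤ) (N : ℕ), N ≠ 0 →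
    (∏ i, ∏ z ∈ ((frob q (h i)).map (Int.castRingHom ℂ)).roots.toFinset, z ^ n i z) ^ N ∈
      splitF f →
    ∀ i, Module.finrank ℚ (splitF f) < 2 ^ (h i).natDegree →
      ∀ z ∈ ((frob q (h i)).map (Int.castRingHom ℂ)).roots.toFinset, n i z = n i (q / z)

theorem field_aux (L : Type) [Field L] [NumberField L] (ψ : L →+* ℂ) (f : ℤ[X])
    (hψ : ∀ z : ℂ, aeval z f = 0 → ∃ y : L, ψ y = z) :
    Module.finrank ℚ (IntermediateField.adjoin ℚ {z : L | aeval z f = 0}) =
      Module.finrank ℚ (splitF f) ∧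
    ∀ x : L, ψ x ∈ splitF f → x ∈ IntermediateField.adjoin ℚ {z : L | aeval z f = 0} := by
  set A : IntermediateField ℚ L := IntermediateField.adjoin ℚ {z : L | aeval z f = 0} with hA
  let Ψ : L →ₐ[ℚ] ℂ := ψ.toRatAlgHom
  have hΨ : ∀ x, Ψ x = ψ x := fun _ => rfl
  have haev : ∀ y : L, aeval (ψ y) f = ψ (aeval y f) := by
    intro y
    rw [aeval_def, aeval_def, hom_eval₂]
    congr 1
    exact Subsingleton.elim _ _
  have hAmap : A.map Ψ = splitF f := by
    rw [hA, IntermediateField.adjoin_map, splitF]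
    congr 1
    ext z
    rw [Set.mem_image]
    constructor
    · rintro ⟨y, hy, rfl⟩
      show aeval (ψ y) f = 0
      rw [haev, show aeval y f = 0 from hy, map_zero]
    · intro hz
      obtain ⟨y, rfl⟩ := hψ z hz
      refine ⟨y, ?_, rfl⟩
      have hz' : aeval (ψ y) f = 0 := hz
      rw [haev] at hz'
      exact (map_eq_zero ψ).1 hz'
  constructor
  · rw [← hAmap]
    exact (A.equivMap Ψ).toLinearEquiv.finrank_eq
  · intro x hx
    rw [← hAmap] at hx
    obtain ⟨y, hy, hy'⟩ := hx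
    have h3 : y = x := ψ.injective hy'
    rw [← h3]
    exact hy

theorem fixing_aux (L : Type) [Field L] [NumberField L] [IsGalois ℚ L] (f : ℤ[X]) :
    ∃ H : Subgroup (L ≃ₐ[ℚ] L), H.Normal ∧
      H.index = Module.finrank ℚ (IntermediateField.adjoin ℚ {z : L | aeval z f = 0}) ∧
      ∀ σ ∈ H, ∀ x ∈ IntermediateField.adjoin ℚ {z : L | aeval z f = 0}, σ x = x := by
  set A : IntermediateField ℚ L := IntermediateField.adjoin ℚ {z : L | aeval z f = 0} with hA
  have hHmem : ∀ σ : L ≃ₐ[ℚ] L, σ ∈ A.fixingSubgroup ↔ ∀ z : L, aeval z f = 0 → σ z = z := by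
    intro σ
    rw [IntermediateField.mem_fixingSubgroup_iff]
    constructor
    · intro h2 z hz
      exact h2 z (IntermediateField.subset_adjoin _ _ hz)
    · intro h2
      have h3 : A ≤ IntermediateField.fixedField (Subgroup.zpowers σ) := by
        rw [hA, IntermediateField.adjoin_le_iff]
        intro z hz
        rw [SetLike.mem_coe, IntermediateField.mem_fixedField_iff]
        intro τ hτ
        have h5 : σ ∈ MulAction.stabilizer (L ≃ₐ[ℚ] L) z := h2 z hz
        exact (Subgroup.zpowers_le.2 h5) hτ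
      intro x hx
      exact (IntermediateField.mem_fixedField_iff _ _).1 (h3 hx) σ (Subgroup.mem_zpowers σ)
  refine ⟨A.fixingSubgroup, ?_, (IntermediateField.finrank_eq_fixingSubgroup_index (L := A)).symm,
    fun σ hσ => (IntermediateField.mem_fixingSubgroup_iff A σ).1 hσ⟩
  constructor
  intro σ hσ τ
  rw [hHmem] at hσ ⊢
  intro z hz
  have h2 : aeval (τ⁻¹ z) f = 0 := by
    have h3 : aeval (τ⁻¹ z) f = (τ⁻¹ : L ≃ₐ[ℚ] L) (aeval z f) := by
      have h4 := hom_eval₂ f (algebraMap ℤ L) ((τ⁻¹ : L ≃ₐ[ℚ] L) : L →+* L) z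
      rw [aeval_def, aeval_def]
      refine Eq.trans ?_ h4.symm
      congr 1
      exact Subsingleton.elim _ _
    rw [h3, hz, map_zero]
  show τ (σ (τ⁻¹ z)) = z
  rw [hσ _ h2]
  exact τ.apply_symm_apply z

theorem goodR_of {q k : ℕ} (hq : 1 ≤ q) (h : Fin k → ℤ[X]) (hm : ∀ i, (h i).Monic)
    (hd : ∀ i, 2 ≤ (h i).natDegree) (hirr : ∀ i, Irreducible (h i))
    (hl : ∀ i, ∃ l, NiceAt q (h i) l ∧ ∀ j, j ≠ i → FineAt q (h j) l) : GoodR q h := by
  classical
  have hirrQ : ∀ i, Irreducible ((h i).map (Int.castRingHom ℚ)) := fun i =>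
    ((hm i).irreducible_iff_irreducible_map_fraction_map (K := ℚ)).1 (hirr i)
  have hq0 : (q : ℤ) ≠ 0 := by omega
  have h1 : ∀ i, Irreducible (qw (q : ℤ) (h i)) := by
    intro i
    obtain ⟨l, ⟨hlp, _, hval⟩, _⟩ := hl i
    exact irreducible_qw hq0 (hm i) (hirrQ i) hlp (by rw [hval]; exact odd_one)
  have hfm : ∀ i, (frob q (h i)).Monic := fun i => (weil_monic (q : ℤ) (h i) (hm i)).1
  refine ⟨fun i => ((hfm i).irreducible_iff_irreducible_map_fraction_map (K := ℚ)).2 (h1 i), ?_⟩
  intro f hf n N hN hrel i hFi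
  -- the splitting field
  set P : ℚ[X] := (∏ i, qw (q : ℤ) (h i)) * f.map (Int.castRingHom ℚ) with hP
  have hf0 : f.map (Int.castRingHom ℚ) ≠ 0 :=
    (Polynomial.map_ne_zero_iff (Int.castRingHom ℚ).injective_int).2 hf
  have hPr : ∏ i, qw (q : ℤ) (h i) ≠ 0 := Finset.prod_ne_zero_iff.2 fun i _ => (h1 i).ne_zero
  have hP0 : P ≠ 0 := mul_ne_zero hPr hf0
  have hsC : (P.map (algebraMap ℚ ℂ)).Splits := IsAlgClosed.splits _
  let L : IntermediateField ℚ ℂ := IntermediateField.adjoin ℚ (P.rootSet ℂ)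
  have hL : P.IsSplittingField ℚ L := IntermediateField.adjoin_rootSet_isSplittingField hsC
  have : FiniteDimensional ℚ L := IsSplittingField.finiteDimensional L P
  have : NumberField L := { }
  have hnorm : Normal ℚ L := Normal.of_isSplittingField P
  have : IsGalois ℚ L := { }
  have hsP : (P.map (algebraMap ℚ L)).Splits := IsSplittingField.splits L P
  have hsL : ∀ i, ((qw (q : ℤ) (h i)).map (algebraMap ℚ L)).Splits := by
    intro i
    refine Splits.of_dvd hsP ?_ (Polynomial.map_dvd _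
      ((Finset.dvd_prod_of_mem _ (Finset.mem_univ i)).mul_right _))
    exact (Polynomial.map_ne_zero_iff (algebraMap ℚ L).injective).2 hP0
  have hmapC : ∀ i, (frob q (h i)).map (Int.castRingHom ℂ) =
      ((qw (q : ℤ) (h i)).map (algebraMap ℚ L)).map (algebraMap L ℂ) := by
    intro i
    rw [Polynomial.map_map, qw, Polynomial.map_map]
    congr 1
  have hroots : ∀ i, ((frob q (h i)).map (Int.castRingHom ℂ)).roots.toFinset =
      (roots (qw (q : ℤ) (h i)) L).image (algebraMap L ℂ) := by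
    intro i
    rw [hmapC, (hsL i).roots_map]
    ext z
    rw [Multiset.mem_toFinset, Multiset.mem_map, Finset.mem_image]
    constructor
    · rintro ⟨b, hb, rfl⟩
      refine ⟨b, ?_, rfl⟩
      rw [mem_roots' (h1 i).ne_zero]
      rw [mem_roots (Polynomial.map_ne_zero (h1 i).ne_zero), IsRoot.def, eval_map_algebraMap] at hb
      exact hb
    · rintro ⟨b, hb, rfl⟩
      refine ⟨b, ?_, rfl⟩
      rw [mem_roots' (h1 i).ne_zero] at hb
      rw [mem_roots (Polynomial.map_ne_zero (h1 i).ne_zero), IsRoot.def, eval_map_algebraMap]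
      exact hb
  have hinj : Function.Injective (algebraMap L ℂ) := (algebraMap L ℂ).injective
  have hprod : ∀ i, ∏ z ∈ (roots (qw (q : ℤ) (h i)) L).image (algebraMap L ℂ), z ^ n i z =
      algebraMap L ℂ (∏ b ∈ roots (qw (q : ℤ) (h i)) L, b ^ n i (algebraMap L ℂ b)) := by
    intro i
    rw [Finset.prod_image fun a _ b _ hab => hinj hab, map_prod]
    exact Finset.prod_congr rfl fun b _ => (map_zpow₀ (algebraMap L ℂ) b _).symm
  simp only [hroots, hprod] at hrel
  rw [← map_prod, ← map_pow] at hrel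
  -- the field of `f` inside `L`
  have hψ : ∀ z : ℂ, aeval z f = 0 → ∃ y : L, algebraMap L ℂ y = z := by
    intro z hz
    have hzL : z ∈ L := by
      apply IntermediateField.subset_adjoin
      rw [mem_rootSet]
      refine ⟨hP0, ?_⟩
      rw [hP, map_mul]
      refine mul_eq_zero_of_right _ ?_
      rw [aeval_def, eval₂_map]
      rw [aeval_def] at hz
      have h3 : (algebraMap ℚ ℂ).comp (Int.castRingHom ℚ) = algebraMap ℤ ℂ :=
        Subsingleton.elim _ _
      rw [h3]; exact hz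
    exact ⟨⟨z, hzL⟩, rfl⟩
  obtain ⟨hfin, hmemA⟩ := field_aux L (algebraMap L ℂ) f hψ
  obtain ⟨H, hnor, hidx, hfixA⟩ := fixing_aux L f
  rw [hfin] at hidx
  have hrelL : ∀ σ ∈ H, σ ((∏ i, ∏ b ∈ roots (qw (q : ℤ) (h i)) L, b ^ n i (algebraMap L ℂ b)) ^ N) =
      (∏ i, ∏ b ∈ roots (qw (q : ℤ) (h i)) L, b ^ n i (algebraMap L ℂ b)) ^ N := fun σ hσ =>
    hfixA σ hσ _ (hmemA _ hrel)
  have h4 := theoremR (Fin k) (fun _ => (q : ℤ)) (fun _ => hq0) h hm hirrQ hd
    (by
      intro i
      obtain ⟨l, ⟨hlp, hsep, hval⟩, hf⟩ := hl i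
      refine ⟨l, hlp, ?_, by rw [hval]; exact odd_one, fun j hj => (hf j hj).2⟩
      intro j
      by_cases hj : j = i
      · rw [hj]; exact hsep
      · exact (hf j hj).1)
    L hsL H hnor (fun i b => n i (algebraMap L ℂ b)) N hN hrelL i (by rw [hidx]; exact hFi)
  intro z hz
  rw [hroots] at hz
  obtain ⟨b, hb, rfl⟩ := Finset.mem_image.1 hz
  have h5 := h4 b hb
  rw [h5, map_div₀, map_intCast]
  norm_cast

end Pool.Agent.Helper19.AAR
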