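import Pool.Agent.Helper19.AAR.Dual

/-!
# AAR: normal subgroups of small index meet the core
-/

open Finset

namespace Pool.Agent.Helper19.AAR

open Pool.Agent.Helper19.Sign (InCore)

theorem exists_core_normal {G S : Type} [Group G] [Finite G] [MulAction G S] {ι : S → S}
    (hι : ∀ x, ι (ι x) = x) (hcomm : ∀ (g : G) (x : S), g • ι x = ι (g • x))
    (htr : ∀ x y : S, ∃ g : G, g • x = y) (C D H : Subgroup G) (hC : ∀ σ ∈ C, InCore ι σ)
    (hD : ∀ σ ∈ C, (∀ x : S, σ • x = x) → σ ∈ D) (hDC : D ≤ C) (hn : H.Normal)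
    (hidx : H.index * C.index < D.index) (x₀ : S) :
    ∃ τ ∈ H, InCore ι τ ∧ τ • x₀ = ι x₀ := by
  have hnle : ¬ (H ⊓ C ≤ D) := by
    intro hle
    have h1 : D.relIndex C ≤ (H ⊓ C).relIndex C :=
      Subgroup.relIndex_le_of_le_left hle
        (Subgroup.index_ne_zero_of_finite (H := (H ⊓ C).subgroupOf C))
    rw [Subgroup.inf_relIndex_right] at h1
    have h2 : H.relIndex C ≤ H.index :=
      Nat.le_of_dvd (Nat.pos_of_ne_zero Subgroup.index_ne_zero_of_finite)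
        (Subgroup.relIndex_dvd_index_of_normal H C)
    have h3 := Subgroup.relIndex_mul_index hDC
    have h4 : D.relIndex C * C.index ≤ H.index * C.index := Nat.mul_le_mul_right _ (h1.trans h2)
    omega
  obtain ⟨τ, hτ, hτD⟩ := SetLike.not_le_iff_exists.1 hnle
  obtain ⟨hτH, hτC⟩ := Subgroup.mem_inf.1 hτ
  have hcore := hC τ hτC
  obtain ⟨x₁, hx₁⟩ : ∃ x₁ : S, τ • x₁ ≠ x₁ := by
    by_contra hcon
    push Not at hcon
    exact hτD (hD τ hτC hcon)
  have hmv : τ • x₁ = ι x₁ := (hcore x₁).resolve_left hx₁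
  obtain ⟨g, hg⟩ := htr x₁ x₀
  have hg' : g⁻¹ • x₀ = x₁ := by rw [← hg, inv_smul_smul]
  refine ⟨g * τ * g⁻¹, hn.conj_mem _ hτH g, ?_, ?_⟩
  · intro x
    rw [mul_smul, mul_smul]
    rcases hcore (g⁻¹ • x) with h | h
    · left; rw [h, smul_inv_smul]
    · right; rw [h, hcomm, smul_inv_smul]
  · rw [mul_smul, mul_smul, hg', hmv, hcomm, hg]

end Pool.Agent.Helper19.AAR
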