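import Pool.Agent.Helper19.Sign.Core

/-!
# AAR: single sign changes from duality over the field with two elements
-/

open Finset

namespace Pool.Agent.Helper19.AAR

open Pool.Agent.Helper19.Sign (InCore)

section

variable {G S : Type} [Group G] [MulAction G S] [Fintype S] {ι : S → S}

open Classical in
/-- The sign vector of an element of the core. -/
noncomputable def sgv (σ : G) : S → ZMod 2 := fun y => if σ • y = y then 0 else 1

theorem inCore_mul (hι : ∀ x, ι (ι x) = x) (hcomm : ∀ (g : G) (x : S), g • ι x = ι (g • x))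
    {σ τ : G} (hσ : InCore ι σ) (hτ : InCore ι τ) : InCore ι (σ * τ) := by
  intro x
  rw [mul_smul]
  rcases hτ x with h | h <;> rcases hσ x with h' | h'
  · left; rw [h, h']
  · right; rw [h, h']
  · right; rw [h, hcomm, h']
  · left; rw [h, hcomm, h', hι]

theorem sgv_mul (hι : ∀ x, ι (ι x) = x) (hfix : ∀ x, ι x ≠ x)
    (hcomm : ∀ (g : G) (x : S), g • ι x = ι (g • x))
    {σ τ : G} (hσ : InCore ι σ) (hτ : InCore ι τ) :
    (sgv (σ * τ) : S → ZMod 2) = sgv σ + sgv τ := by
  funext x
  rw [Pi.add_apply, sgv, sgv, sgv, mul_smul]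
  have h2 : (1 : ZMod 2) + 1 = 0 := by decide
  rcases hτ x with h | h <;> rcases hσ x with h' | h'
  · rw [h, h', if_pos rfl, add_zero]
  · rw [h, h', if_neg (hfix x), if_pos rfl, add_zero]
  · rw [h, hcomm, h', if_neg (hfix x), if_pos rfl, zero_add]
  · rw [h, hcomm, h', hι, if_pos rfl, if_neg (hfix x), h2]

/-- The sign vectors of the core. -/
noncomputable def codeV (hι : ∀ x, ι (ι x) = x) (hfix : ∀ x, ι x ≠ x)
    (hcomm : ∀ (g : G) (x : S), g • ι x = ι (g • x)) : Submodule (ZMod 2) (S → ZMod 2) where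
  carrier := {u | ∃ σ : G, InCore ι σ ∧ sgv σ = u}
  add_mem' := by
    rintro _ _ ⟨σ, hσ, rfl⟩ ⟨τ, hτ, rfl⟩
    exact ⟨σ * τ, inCore_mul hι hcomm hσ hτ, sgv_mul hι hfix hcomm hσ hτ⟩
  zero_mem' := ⟨1, fun x => Or.inl (one_smul _ x), by funext x; simp [sgv]⟩
  smul_mem' := by
    rintro c _ ⟨σ, hσ, rfl⟩
    have hc : c = 0 ∨ c = 1 := by
      revert c
      decide
    rcases hc with rfl | rfl
    · exact ⟨1, fun x => Or.inl (one_smul _ x), by funext x; simp [sgv]⟩
    · exact ⟨σ, hσ, by rw [one_smul]⟩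

open Classical in
/-- If no product of sign characters in which `x₀` occurs exactly once is trivial on the core, then
the core contains the single sign change at `x₀`. -/
theorem exists_single (hι : ∀ x, ι (ι x) = x) (hfix : ∀ x, ι x ≠ x)
    (hcomm : ∀ (g : G) (x : S), g • ι x = ι (g • x)) (x₀ : S)
    (h : ∀ T : Finset S, ((x₀ ∈ T ∧ ι x₀ ∉ T) ∨ (x₀ ∉ T ∧ ι x₀ ∈ T)) →
      ∃ σ : G, InCore ι σ ∧ ¬ Even (T.filter fun y => σ • y ≠ y).card) :
    ∃ σ : G, InCore ι σ ∧ σ • x₀ = ι x₀ ∧ ∀ y, y ≠ x₀ → y ≠ ι x₀ → σ • y = y := by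
  set δ : S → ZMod 2 := fun y => if y = x₀ ∨ y = ι x₀ then 1 else 0 with hδ
  by_cases hmem : δ ∈ codeV (G := G) hι hfix hcomm
  · obtain ⟨σ, hσ, hσδ⟩ := hmem
    have h10 : (1 : ZMod 2) ≠ 0 := by decide
    refine ⟨σ, hσ, ?_, fun y hy hy' => ?_⟩
    · refine (hσ x₀).resolve_left fun h1 => ?_
      have h2 := congrFun hσδ x₀
      rw [sgv, hδ] at h2
      simp only [h1, if_true, true_or] at h2
      exact h10 h2.symm
    · by_contra h1
      have h2 := congrFun hσδ y
      rw [sgv, hδ] at h2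
      simp only [h1, if_false, hy, hy', or_self] at h2
      exact h10 h2
  · exfalso
    obtain ⟨f, hf, hfV⟩ := Submodule.exists_le_ker_of_notMem hmem
    have hf1 : ∀ u : S → ZMod 2, f u = ∑ y, u y * f (Pi.single y 1) := by
      intro u
      conv_lhs => rw [show u = ∑ y, u y • (Pi.single y (1 : ZMod 2) : S → ZMod 2) by
        funext z
        rw [Finset.sum_apply]
        simp [Pi.single_apply]]
      rw [map_sum]
      refine sum_congr rfl fun y _ => ?_
      rw [map_smul, smul_eq_mul]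
    have h01 : ∀ c : ZMod 2, c = 0 ∨ c = 1 := by decide
    set T : Finset S := univ.filter fun y => f (Pi.single y 1) = 1 with hT
    have hf2 : ∀ u : S → ZMod 2, f u = ∑ y ∈ T, u y := by
      intro u
      rw [hf1, hT, sum_filter]
      refine sum_congr rfl fun y _ => ?_
      rcases h01 (f (Pi.single y 1)) with h | h
      · rw [h, mul_zero, if_neg (by decide)]
      · rw [h, mul_one, if_pos rfl]
    have hδT : ∑ y ∈ T, δ y = (if x₀ ∈ T then 1 else 0) + (if ι x₀ ∈ T then 1 else 0) := by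
      have h1 : ∀ y ∈ T, δ y = (if y = x₀ then (1 : ZMod 2) else 0) +
          (if y = ι x₀ then (1 : ZMod 2) else 0) := by
        intro y _
        rw [hδ]
        by_cases hy : y = x₀
        · have hy' : y ≠ ι x₀ := fun h => hfix x₀ (h.symm.trans hy)
          simp [hy, (hfix x₀).symm]
        · by_cases hy' : y = ι x₀
          · simp [hy', hfix x₀]
          · simp [hy, hy']
      rw [sum_congr rfl h1, sum_add_distrib, sum_ite_eq', sum_ite_eq']
    have hcase : (x₀ ∈ T ∧ ι x₀ ∉ T) ∨ (x₀ ∉ T ∧ ι x₀ ∈ T) := by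
      have h1 := hf2 δ
      rw [hδT] at h1
      by_cases ha : x₀ ∈ T <;> by_cases hb : ι x₀ ∈ T
      · exfalso
        rw [if_pos ha, if_pos hb] at h1
        exact hf (h1.trans (by decide))
      · exact Or.inl ⟨ha, hb⟩
      · exact Or.inr ⟨ha, hb⟩
      · exfalso
        rw [if_neg ha, if_neg hb] at h1
        exact hf (h1.trans (by decide))
    obtain ⟨σ, hσ, hodd⟩ := h T hcase
    apply hodd
    have h1 : f (sgv σ) = 0 := hfV ⟨σ, hσ, rfl⟩
    rw [hf2] at h1
    have h2 : ∑ y ∈ T, (sgv σ : S → ZMod 2) y =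
        (((T.filter fun y => σ • y ≠ y).card : ℕ) : ZMod 2) := by
      rw [card_filter]
      push_cast
      refine sum_congr rfl fun y _ => ?_
      rw [sgv]
      by_cases h : σ • y = y
      · rw [if_pos h, if_neg (by simpa using h)]
      · rw [if_neg h, if_pos (by simpa using h)]
    rw [h2] at h1
    exact (ZMod.natCast_eq_zero_iff_even).1 h1

end

end Pool.Agent.Helper19.AAR
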