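import Pool.Agent.Helper19.Sign.ThmB
import Pool.Agent.Helper19.AAR.Dual

/-!
# AAR: one prime gives a single sign change
-/

open Polynomial Finset

namespace Pool.Agent.Helper19.AAR

open Pool.Agent.Helper19.Sign
open Disc (roots Rt mem_roots' stab_roots roots_map_eq exists_conj)

/-- Existence of a single sign change. -/
theorem exists_flip (I : Type) [Fintype I] [DecidableEq I] (c : I → ℤ) (hc : ∀ i, c i ≠ 0)
    (h : I → ℤ[X]) (hm : ∀ i, (h i).Monic) (hirr : ∀ i, Irreducible (qw (c i) (h i)))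
    (L : Type) [Field L] [NumberField L] [IsGalois ℚ L] [DecidableEq L]
    (hsplit : ∀ i, ((qw (c i) (h i)).map (algebraMap ℚ L)).Splits)
    [MulAction (L ≃ₐ[ℚ] L) (Σ i, Rt L (qw (c i) (h i)))]
    (hact : ∀ (σ : L ≃ₐ[ℚ] L) (x : Σ i, Rt L (qw (c i) (h i))), (σ • x).1 = x.1 ∧
      (σ • x).2.1 = σ x.2.1)
    (ι : (Σ i, Rt L (qw (c i) (h i))) → Σ i, Rt L (qw (c i) (h i)))
    (hι : ∀ x, (ι x).1 = x.1 ∧ (ι x).2.1 = (c x.1 : L) / x.2.1)
    (hιι : ∀ x, ι (ι x) = x)
    (hcomm : ∀ (g : L ≃ₐ[ℚ] L) (x : Σ i, Rt L (qw (c i) (h i))), g • ι x = ι (g • x))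
    (hfixι : ∀ x, ι x ≠ x)
    (hfix : ∀ x : Σ i, Rt L (qw (c i) (h i)), x.2.1 ^ 2 ≠ (c x.1 : L))
    (i : I) (ℓ : ℕ) (hℓ : ℓ.Prime)
    (hsep : ∀ j, ((h j).map (Int.castRingHom (ZMod ℓ))).Separable)
    (hodd : Odd (padicValInt ℓ ((h i).resultant (X ^ 2 - C (4 * c i)))))
    (hndvd : ∀ j, j ≠ i → ¬ (ℓ : ℤ) ∣ (h j).resultant (X ^ 2 - C (4 * c j))) :
    ∃ x₀ : Σ i, Rt L (qw (c i) (h i)), x₀.1 = i ∧
      ∃ σ₀ : L ≃ₐ[ℚ] L, σ₀ • x₀ = ι x₀ ∧ ∀ y, y ≠ x₀ → y ≠ ι x₀ → σ₀ • y = y := by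
  classical
  have hFℓ : Fact ℓ.Prime := ⟨hℓ⟩
  let S : Type := Σ i, Rt L (qw (c i) (h i))
  have hSext : ∀ x y : S, x.1 = y.1 → x.2.1 = y.2.1 → x = y := by
    rintro ⟨i, x, hx⟩ ⟨j, y, hy⟩ h1 h2
    obtain rfl : i = j := h1
    obtain rfl : x = y := h2
    rfl
  have hx0 : ∀ x : S, x.2.1 ≠ 0 := fun x => qw_root_ne_zero (hm x.1) (hirr x.1) x.2.2
  have hcL : ∀ i, (c i : L) ≠ 0 := fun i => by exact_mod_cast hc i
  -- the real field
  set H : ℚ[X] := ∏ i, (h i).map (Int.castRingHom ℚ) with hH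
  have hHm : H.Monic := monic_prod_of_monic _ _ fun i _ => (hm i).map _
  have hmapL : ∀ j, ((h j).map (Int.castRingHom ℚ)).map (algebraMap ℚ L) =
      (h j).map (Int.castRingHom L) := by
    intro j
    rw [Polynomial.map_map]
    congr 1
    exact Subsingleton.elim _ _
  have hHL : (H.map (algebraMap ℚ L)).Splits := by
    rw [hH, Polynomial.map_prod]
    refine Splits.prod fun j _ => ?_
    rw [hmapL]
    exact (traces_eq (hm j) (hirr j) (hsplit j)).2
  set K : IntermediateField ℚ L := IntermediateField.adjoin ℚ (H.rootSet L) with hK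
  have hKs : H.IsSplittingField ℚ K := IntermediateField.adjoin_rootSet_isSplittingField hHL
  obtain ⟨v, hmul, hadd, hint, hpos, hdiff⟩ := exists_unramified_val I h hm ℓ hsep K
  -- the traces
  let a : S → L := fun x => x.2.1 + (c x.1 : L) / x.2.1
  have haroot : ∀ x : S, aeval (a x) (h x.1) = 0 := fun x =>
    (mem_qw (hm x.1) (hirr x.1).ne_zero (hx0 x)).1 x.2.2
  have haQ : ∀ (j : I) (z : L), aeval z (h j) = 0 → z ∈ H.rootSet L := by
    intro j z hz
    rw [mem_rootSet]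
    refine ⟨hHm.ne_zero, ?_⟩
    rw [hH, map_prod]
    refine prod_eq_zero (mem_univ j) ?_
    rw [aeval_def, eval₂_map]
    rw [aeval_def] at hz
    have h3 : (algebraMap ℚ L).comp (Int.castRingHom ℚ) = algebraMap ℤ L := Subsingleton.elim _ _
    rw [h3]; exact hz
  have haK : ∀ x : S, a x ∈ K := fun x =>
    IntermediateField.subset_adjoin _ _ (haQ x.1 _ (haroot x))
  let aK : S → K := fun x => ⟨a x, haK x⟩
  have haKroot : ∀ x : S, aeval (aK x) (h x.1) = 0 := by
    intro x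
    have h1 := haroot x
    have h2 : ((aeval (aK x) (h x.1) : K) : L) = aeval (a x) (h x.1) := by
      rw [show a x = algebraMap K L (aK x) from rfl, aeval_algebraMap_apply]
      rfl
    rw [h1] at h2
    exact_mod_cast h2
  have ha_eq : ∀ x y : S, x.1 = y.1 → a x = a y → y = x ∨ y = ι x := by
    intro x y h1 h2
    have hx := hx0 x
    have hy := hx0 y
    have h3 : (y.2.1 - x.2.1) * (y.2.1 - (c x.1 : L) / x.2.1) = 0 := by
      have h4 : x.2.1 + (c x.1 : L) / x.2.1 = y.2.1 + (c y.1 : L) / y.2.1 := h2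
      have h5 : (c y.1 : L) = (c x.1 : L) := congrArg (fun j => (c j : L)) h1.symm
      rw [h5] at h4
      field_simp at h4 ⊢
      linear_combination -h4
    rcases mul_eq_zero.1 h3 with h4 | h4
    · exact Or.inl (hSext _ _ h1.symm (sub_eq_zero.1 h4))
    · refine Or.inr (hSext _ _ ?_ ?_)
      · rw [(hι x).1]; exact h1.symm
      · rw [(hι x).2]; exact sub_eq_zero.1 h4
  -- the roots in `K`
  have hsK : ∀ j, ((h j).map (Int.castRingHom K)).Splits := by
    intro j
    have h1 : (H.map (algebraMap ℚ K)).Splits := IsSplittingField.splits K H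
    refine Splits.of_dvd h1 (hHm.map _).ne_zero ?_
    have h2 : ((h j).map (Int.castRingHom ℚ)).map (algebraMap ℚ K) =
        (h j).map (Int.castRingHom K) := by
      rw [Polynomial.map_map]
      congr 1
      exact Subsingleton.elim _ _
    rw [← h2]
    exact Polynomial.map_dvd _ (dvd_prod_of_mem _ (mem_univ j))
  have hrootsK : ∀ j, ((h j).map (Int.castRingHom L)).roots =
      ((h j).map (Int.castRingHom K)).roots.map (algebraMap K L) := by
    intro j
    rw [← (hsK j).roots_map (algebraMap K L), Polynomial.map_map]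
    congr 2
  have hnodup : ∀ j, ((h j).map (Int.castRingHom K)).roots.Nodup := by
    intro j
    have h1 : (((h j).map (Int.castRingHom K)).roots.map (algebraMap K L)).Nodup := by
      rw [← hrootsK, (traces_eq (hm j) (hirr j) (hsplit j)).1]
      exact (traces (c j) (h j) L).nodup
    exact Multiset.Nodup.of_map _ h1
  let A : I → Finset K := fun j => ⟨((h j).map (Int.castRingHom K)).roots, hnodup j⟩
  have hAmem : ∀ j z, z ∈ A j ↔ aeval z (h j) = 0 := by
    intro j z
    show z ∈ ((h j).map (Int.castRingHom K)).roots ↔ _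
    rw [mem_roots ((hm j).map _).ne_zero, IsRoot.def, eval_map, aeval_def]
    have h3 : Int.castRingHom K = algebraMap ℤ K := Subsingleton.elim _ _
    rw [h3]
  have hAx : ∀ j, ∀ z ∈ A j, ∃ x : S, x.1 = j ∧ aK x = z := by
    intro j z hz
    have h1 : algebraMap K L z ∈ ((h j).map (Int.castRingHom L)).roots := by
      rw [hrootsK]
      exact Multiset.mem_map_of_mem _ hz
    rw [(traces_eq (hm j) (hirr j) (hsplit j)).1] at h1
    obtain ⟨β, hβ, h2⟩ := mem_image.1 (show algebraMap K L z ∈ traces (c j) (h j) L from h1)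
    refine ⟨⟨j, ⟨β, hβ⟩⟩, rfl, ?_⟩
    apply Subtype.ext
    exact h2
  have hxA : ∀ x : S, aK x ∈ A x.1 := fun x => (hAmem _ _).2 (haKroot x)
  -- integrality
  have hv0 : v 1 = 0 := by
    have := hmul 1 1 one_ne_zero one_ne_zero
    rw [mul_one] at this
    omega
  let dK : S → K := fun x => aK x ^ 2 - 4 * (c x.1 : K)
  have hdL : ∀ x : S, ((dK x : K) : L) = (x.2.1 - (c x.1 : L) / x.2.1) ^ 2 := by
    intro x
    have hx := hx0 x
    show (a x) ^ 2 - 4 * (((c x.1 : ℤ) : K) : L) = _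
    rw [show (((c x.1 : ℤ) : K) : L) = (c x.1 : L) by norm_cast]
    show (x.2.1 + (c x.1 : L) / x.2.1) ^ 2 - 4 * (c x.1 : L) = _
    field_simp
    ring
  have hzne : ∀ x : S, x.2.1 - (c x.1 : L) / x.2.1 ≠ 0 := by
    intro x h1
    apply hfix x
    have hx := hx0 x
    field_simp at h1
    linear_combination h1
  have hdne : ∀ x : S, dK x ≠ 0 := by
    intro x h1
    have h2 := hdL x
    rw [h1] at h2
    exact pow_ne_zero 2 (hzne x) h2.symm
  have hpos' : ∀ j, ∀ z ∈ A j, 0 ≤ v (z ^ 2 - 4 * (c j : K)) := by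
    intro j z hz
    obtain ⟨x, rfl, rfl⟩ := hAx j z hz
    refine hpos _ (hdne x) ?_
    have h1 : IsIntegral ℤ (aK x) := ⟨h x.1, hm x.1, haKroot x⟩
    refine (h1.pow 2).sub ?_
    have h2 : (4 * (c x.1 : K)) = algebraMap ℤ K (4 * c x.1) := by
      push_cast
      simp
    rw [h2]
    exact isIntegral_algebraMap
  have hsumj : ∀ j, (h j).resultant (X ^ 2 - C (4 * c j)) ≠ 0 →
      ∑ z ∈ A j, v (z ^ 2 - 4 * (c j : K)) =
        padicValInt ℓ ((h j).resultant (X ^ 2 - C (4 * c j))) := fun j hj =>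
    sum_val v hmul ℓ hint (h j) (hm j) (c j) (hsK j) (A j) rfl hj
  have hresi : (h i).resultant (X ^ 2 - C (4 * c i)) ≠ 0 := by
    intro h0
    rw [h0] at hodd
    simp at hodd
  have hother : ∀ y : S, y.1 ≠ i → v (dK y) = 0 := by
    intro y hy
    have h1 := hndvd y.1 hy
    have h2 : (h y.1).resultant (X ^ 2 - C (4 * c y.1)) ≠ 0 := by
      intro h0
      rw [h0] at h1
      exact h1 (dvd_zero _)
    have h3 := hsumj y.1 h2
    rw [padicValInt.eq_zero_of_not_dvd h1, Nat.cast_zero] at h3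
    exact (sum_eq_zero_iff_of_nonneg (hpos' y.1)).1 h3 _ (hxA y)
  have hsumi := hsumj i hresi
  have hoddsum : Odd (∑ z ∈ A i, v (z ^ 2 - 4 * (c i : K))) := by
    rw [hsumi]
    exact_mod_cast hodd
  obtain ⟨a₀, ha₀, hodd₀, heven⟩ := unique_odd v hmul hadd (A i) (4 * (c i : K))
    (fun z hz z' hz' hne => hdiff i z z' hne ((hAmem _ _).1 hz) ((hAmem _ _).1 hz'))
    (hpos' i) hoddsum
  obtain ⟨x₀, hx₀i, hx₀a⟩ := hAx i a₀ ha₀
  subst hx₀i
  rw [← hx₀a] at hodd₀
  have hodd₀' : Odd (v (dK x₀)) := hodd₀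
  have heven' : ∀ y : S, y ≠ x₀ → y ≠ ι x₀ → Even (v (dK y)) := by
    intro y h1 h2
    by_cases h3 : y.1 = x₀.1
    · have h4 : aK y ≠ a₀ := by
        intro h5
        rw [← hx₀a] at h5
        have h6 : a x₀ = a y := (congrArg Subtype.val h5).symm
        rcases ha_eq x₀ y h3.symm h6 with h7 | h7
        · exact h1 h7
        · exact h2 h7
      have h5 := heven (aK y) (by rw [← h3]; exact hxA y) h4
      rw [← h3] at h5
      exact h5
    · rw [hother y h3]
      exact Even.zero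
  -- the core
  have hstab : ∀ (σ : L ≃ₐ[ℚ] L) (x : S), σ • x = x ∨ σ • x = ι x ↔ σ (a x) = a x := by
    intro σ x
    have hx := hx0 x
    have hcx := hcL x.1
    have hσc : σ (c x.1 : L) = (c x.1 : L) := map_intCast σ _
    have hσa : σ (a x) = σ x.2.1 + (c x.1 : L) / σ x.2.1 := by
      show σ (x.2.1 + (c x.1 : L) / x.2.1) = _
      rw [map_add, map_div₀, hσc]
    have h1 : a (σ • x) = σ (a x) := by
      rw [hσa]
      show (σ • x).2.1 + (c (σ • x).1 : L) / (σ • x).2.1 = _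
      have h5 : (c (σ • x).1 : L) = (c x.1 : L) := congrArg (fun j => (c j : L)) (hact σ x).1
      rw [h5, (hact σ x).2]
    constructor
    · rintro (h2 | h2)
      · rw [← h1, h2]
      · rw [← h1, h2]
        show (ι x).2.1 + (c (ι x).1 : L) / (ι x).2.1 = x.2.1 + (c x.1 : L) / x.2.1
        have h5 : (c (ι x).1 : L) = (c x.1 : L) := congrArg (fun j => (c j : L)) (hι x).1
        rw [h5, (hι x).2, div_div_cancel₀ hcx]
        ring
    · intro h2
      rw [← h1] at h2
      exact ha_eq x (σ • x) (hact σ x).1.symm h2.symm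
  have hcore : ∀ σ : L ≃ₐ[ℚ] L, InCore ι σ ↔ σ ∈ K.fixingSubgroup := by
    intro σ
    constructor
    · intro h1
      rw [IntermediateField.mem_fixingSubgroup_iff]
      have h2 : K ≤ IntermediateField.fixedField (Subgroup.zpowers σ) := by
        rw [hK, IntermediateField.adjoin_le_iff]
        intro z hz
        rw [SetLike.mem_coe, IntermediateField.mem_fixedField_iff]
        intro τ hτ
        have h3 : σ z = z := by
          rw [mem_rootSet, hH, map_prod] at hz
          obtain ⟨j, _, hj⟩ := prod_eq_zero_iff.1 hz.2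
          have h4 : z ∈ ((h j).map (Int.castRingHom L)).roots := by
            rw [mem_roots ((hm j).map _).ne_zero, IsRoot.def, ← hmapL, eval_map]
            exact hj
          rw [(traces_eq (hm j) (hirr j) (hsplit j)).1] at h4
          obtain ⟨β, hβ, rfl⟩ := mem_image.1 (show z ∈ traces (c j) (h j) L from h4)
          exact (hstab σ ⟨j, ⟨β, hβ⟩⟩).1 (h1 _)
        have h5 : σ ∈ MulAction.stabilizer (L ≃ₐ[ℚ] L) z := h3
        exact (Subgroup.zpowers_le.2 h5) hτ
      intro x hx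
      exact (IntermediateField.mem_fixedField_iff _ _).1 (h2 hx) σ (Subgroup.mem_zpowers σ)
    · intro h1 x
      rw [IntermediateField.mem_fixingSubgroup_iff] at h1
      exact (hstab σ x).2 (h1 _ (haK x))
  let z : S → L := fun x => x.2.1 - (c x.1 : L) / x.2.1
  have hzσ : ∀ (σ : L ≃ₐ[ℚ] L) (x : S), σ (z x) = z (σ • x) := by
    intro σ x
    show σ (x.2.1 - (c x.1 : L) / x.2.1) = (σ • x).2.1 - (c (σ • x).1 : L) / (σ • x).2.1
    have h5 : (c (σ • x).1 : L) = (c x.1 : L) := congrArg (fun j => (c j : L)) (hact σ x).1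
    rw [h5, (hact σ x).2, map_sub, map_div₀, map_intCast]
  have hzι : ∀ x : S, z (ι x) = - z x := by
    intro x
    show (ι x).2.1 - (c (ι x).1 : L) / (ι x).2.1 = -(x.2.1 - (c x.1 : L) / x.2.1)
    have h5 : (c (ι x).1 : L) = (c x.1 : L) := congrArg (fun j => (c j : L)) (hι x).1
    rw [h5, (hι x).2, div_div_cancel₀ (hcL x.1)]
    ring
  have hfixK : ∀ w : L, (∀ σ ∈ K.fixingSubgroup, σ w = w) → w ∈ K := by
    intro w hw
    have h1 : w ∈ IntermediateField.fixedField K.fixingSubgroup := by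
      rw [IntermediateField.mem_fixedField_iff]
      exact hw
    rwa [IsGalois.fixedField_fixingSubgroup] at h1
  have hιne : ι x₀ ≠ x₀ := by
    intro h1
    have h2 : z (ι x₀) = z x₀ := congrArg z h1
    rw [hzι] at h2
    have h3 : z x₀ = 0 := by
      have h4 : (2 : L) * z x₀ = 0 := by linear_combination -h2
      exact (mul_eq_zero.1 h4).resolve_left two_ne_zero
    exact hzne x₀ h3
  -- values of `dK`
  have hdι : ∀ x : S, dK (ι x) = dK x := by
    intro x
    apply Subtype.ext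
    rw [hdL, hdL]
    have h1 := hzι x
    have h2 : (ι x).2.1 - (c (ι x).1 : L) / (ι x).2.1 = -(x.2.1 - (c x.1 : L) / x.2.1) := h1
    rw [h2]
    ring
  suffices hsuff : ∀ T : Finset S, ((x₀ ∈ T ∧ ι x₀ ∉ T) ∨ (x₀ ∉ T ∧ ι x₀ ∈ T)) →
      ∃ σ : L ≃ₐ[ℚ] L, InCore ι σ ∧ ¬ Even (T.filter fun y => σ • y ≠ y).card by
    obtain ⟨σ, hσ, h1, h2⟩ := exists_single (G := L ≃ₐ[ℚ] L) hιι hfixι hcomm x₀
      (fun T hT => by
        obtain ⟨σ, h1, h2⟩ := hsuff T hT
        refine ⟨σ, h1, ?_⟩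
        convert h2)
    exact ⟨x₀, rfl, σ, h1, h2⟩
  intro T hT
  by_contra hcon
  push Not at hcon
  -- the product of the square roots is in `K`
  have hw : ∏ y ∈ T, z y ∈ K := by
    apply hfixK
    intro σ hσ
    have hσ' := (hcore σ).2 hσ
    have hev := hcon σ hσ'
    rw [map_prod]
    have h3 : ∀ y ∈ T, σ (z y) = (if σ • y ≠ y then (-1 : L) else 1) * z y := by
      intro y _
      rw [hzσ]
      by_cases h : σ • y = y
      · rw [if_neg (by simpa using h), h, one_mul]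
      · rw [if_pos h, (hσ' y).resolve_left h, hzι]; ring
    rw [prod_congr rfl h3, prod_mul_distrib, prod_ite, prod_const, prod_const_one, mul_one,
      hev.neg_one_pow, one_mul]
  have h4 : (⟨∏ y ∈ T, z y, hw⟩ : K) ^ 2 = ∏ y ∈ T, dK y := by
    apply Subtype.ext
    rw [SubmonoidClass.coe_pow, ← prod_pow]
    have h5 : ((∏ y ∈ T, dK y : K) : L) = ∏ y ∈ T, ((dK y : K) : L) := map_prod (algebraMap K L) _ _
    rw [h5]
    exact prod_congr rfl fun y _ => (hdL y).symm
  have h5 : (⟨∏ y ∈ T, z y, hw⟩ : K) ≠ 0 := by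
    intro h6
    rw [h6] at h4
    exact prod_ne_zero_iff.2 (fun y _ => hdne y) (by rw [← h4]; ring)
  have hvprod : ∀ U : Finset S, v (∏ y ∈ U, dK y) = ∑ y ∈ U, v (dK y) := by
    intro U
    induction U using Finset.induction_on with
    | empty => rw [sum_empty, prod_empty, hv0]
    | insert b U hb ih =>
      rw [sum_insert hb, prod_insert hb, hmul _ _ (hdne b)
        (prod_ne_zero_iff.2 fun y _ => hdne y), ih]
  have h6 := congrArg v h4
  rw [pow_two, hmul _ _ h5 h5, hvprod] at h6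
  -- exactly one odd term
  have hoddT : Odd (∑ y ∈ T, v (dK y)) := by
    obtain ⟨y₀, hy₀T, hy₀, hrest⟩ : ∃ y₀ ∈ T, Odd (v (dK y₀)) ∧ ∀ y ∈ T, y ≠ y₀ → Even (v (dK y)) := by
      rcases hT with ⟨h7, h8⟩ | ⟨h7, h8⟩
      · refine ⟨x₀, h7, hodd₀', fun y hy hne => heven' y hne ?_⟩
        rintro rfl
        exact h8 hy
      · refine ⟨ι x₀, h8, by rw [hdι]; exact hodd₀', fun y hy hne => heven' y ?_ hne⟩
        rintro rfl
        exact h7 hy
    rw [← add_sum_erase T _ hy₀T]
    refine hy₀.add_even ?_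
    exact even_sum _ fun y hy => hrest y (mem_of_mem_erase hy) (ne_of_mem_erase hy)
  obtain ⟨t, ht⟩ := hoddT
  omega

end Pool.Agent.Helper19.AAR
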