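import Pool.Agent.Helper19.Sign.Final
import Pool.Agent.Helper19.AAR.Good

/-!
# Sign codes: definitions and the version over the rational numbers

`frob q h` is the characteristic polynomial of Frobenius of a `g`-dimensional abelian variety over
the field with `q` elements, `h` the polynomial of the traces `π + q / π`.
-/

open Polynomial Finset

namespace Pool.Agent.Helper19.SC

open Pool.Agent.Helper19.AAR (splitF)

/-- The polynomial `T ^ g h(T + q / T)`, `g = deg h`. -/
noncomputable def frob (q : ℕ) (h : ℤ[X]) : ℤ[X] :=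
  ∑ j ∈ range (h.natDegree + 1),
    C (h.coeff j) * X ^ (h.natDegree - j) * (X ^ 2 + C (q : ℤ)) ^ j

/-- The set of the complex roots. -/
noncomputable def croots (P : ℤ[X]) : Finset ℂ := (P.map (Int.castRingHom ℂ)).roots.toFinset

/-- The resultant of `h` and `T ^ 2 - 4 q`. -/
noncomputable def res (q : ℕ) (h : ℤ[X]) : ℤ := h.resultant (X ^ 2 - C (4 * (q : ℤ)))

/-- A prime `ℓ` modulo which `h` is separable and which divides the resultant exactly an odd number
of times. -/
def OddPrime (q : ℕ) (h : ℤ[X]) : Prop :=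
  ∃ ℓ : ℕ, ℓ.Prime ∧ (h.map (Int.castRingHom (ZMod ℓ))).Separable ∧
    Odd (padicValInt ℓ (res q h))

/-- A finite field `F` over which `h` splits, `frob q h` is separable and has `2 (g - m)` roots,
where `b` does not divide `m`. -/
def FiniteTest (q : ℕ) (h : ℤ[X]) (b : ℕ) : Prop :=
  ∃ (F : Type) (_ : Field F) (_ : Finite F) (m : ℕ), (h.map (Int.castRingHom F)).Splits ∧
    ((frob q h).map (Int.castRingHom F)).Separable ∧
    Multiset.card ((frob q h).map (Int.castRingHom F)).roots + 2 * m = 2 * h.natDegree ∧ ¬ b ∣ m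

/-- The degree of the splitting field of `frob q h` over the splitting field of `h` is larger than
`2 ^ (g / b)`. -/
def LargeDegree (q : ℕ) (h : ℤ[X]) (b : ℕ) : Prop :=
  2 ^ (h.natDegree / b) * Module.finrank ℚ (splitF h) < Module.finrank ℚ (splitF (frob q h))

theorem splitF_eq {f : ℤ[X]} (hf : f ≠ 0) : splitF f = IntermediateField.adjoin ℚ (f.rootSet ℂ) := by
  rw [splitF]
  congr 1
  ext z
  rw [mem_rootSet]
  exact ⟨fun h => ⟨hf, h⟩, fun h => h.2⟩

/-- All the slopes minus `1 / 2` have the same nonzero 2-adic absolute value. -/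
def Slopes (q : ℕ) (h : ℤ[X]) : Prop :=
  ∃ (v : ℂ → ℚ) (ρ : ℚ), ρ ≠ 0 ∧ (∀ x y : ℂ, x ≠ 0 → y ≠ 0 → v (x * y) = v x + v y) ∧
    ∀ z ∈ croots (frob q h), padicNorm 2 (v z - v (q : ℂ) / 2) = ρ

theorem rational (q : ℕ) (h : ℤ[X]) (hq : 0 < q) (hm : h.Monic)
    -- an absolutely simple isogeny class
    (hirr : Irreducible (frob q h)) (hweil : ∀ z ∈ croots (frob q h), ‖z‖ ^ 2 = q)
    (habs : ∀ z ∈ croots (frob q h), ∀ z' ∈ croots (frob q h), ∀ k : ℕ, 0 < k →
      z ^ k = z' ^ k → z = z')
    -- every divisor `b > 2` of the dimension is excluded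
    (hb : ∀ b, b ∣ h.natDegree → 2 < b →
      OddPrime q h ∨ FiniteTest q h b ∨ LargeDegree q h b ∨
        (Slopes q h ∧ (b.Prime ∨ ((∃ k, b = 2 ^ k) ∧ ¬ IsSquare (res q h)))))
    -- a relation
    (n : ℂ → ℤ) (N : ℕ) (hN : N ≠ 0) (r : ℚ)
    (hrel : (∏ z ∈ croots (frob q h), z ^ n z) ^ N = (r : ℂ)) :
    ∀ z ∈ croots (frob q h), n z = n (q / z) := by
  classical
  set P : ℚ[X] := Helper19.Sign.qw (q : ℤ) h with hP
  have hfm : (frob q h).Monic := (Helper19.Sign.weil_monic (q : ℤ) h hm).1
  have h1 : Irreducible P := (hfm.irreducible_iff_irreducible_map_fraction_map (K := ℚ)).1 hirr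
  have hsC : (P.map (algebraMap ℚ ℂ)).Splits := IsAlgClosed.splits _
  let L : IntermediateField ℚ ℂ := IntermediateField.adjoin ℚ (P.rootSet ℂ)
  have hL : P.IsSplittingField ℚ L := IntermediateField.adjoin_rootSet_isSplittingField hsC
  have : FiniteDimensional ℚ L := IsSplittingField.finiteDimensional L P
  have : NumberField L := { }
  have hsepP : P.Separable := h1.separable
  have : IsGalois ℚ L := IsGalois.of_separable_splitting_field hsepP
  have hsL : (P.map (algebraMap ℚ L)).Splits := IsSplittingField.splits L P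
  have hmapC : (frob q h).map (Int.castRingHom ℂ) = (P.map (algebraMap ℚ L)).map
      (algebraMap L ℂ) := by
    rw [Polynomial.map_map, hP, Helper19.Sign.qw, Polynomial.map_map]
    congr 1
  have hroots : croots (frob q h) = (Helper19.Disc.roots P L).image (algebraMap L ℂ) := by
    rw [croots, hmapC, hsL.roots_map]
    ext z
    rw [Multiset.mem_toFinset, Multiset.mem_map, Finset.mem_image]
    constructor
    · rintro ⟨b, hb, rfl⟩
      refine ⟨b, ?_, rfl⟩
      rw [Helper19.Disc.mem_roots' h1.ne_zero]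
      rw [mem_roots (Polynomial.map_ne_zero h1.ne_zero), IsRoot.def, eval_map_algebraMap] at hb
      exact hb
    · rintro ⟨b, hb, rfl⟩
      refine ⟨b, ?_, rfl⟩
      rw [Helper19.Disc.mem_roots' h1.ne_zero] at hb
      rw [mem_roots (Polynomial.map_ne_zero h1.ne_zero), IsRoot.def, eval_map_algebraMap]
      exact hb
  have hinj : Function.Injective (algebraMap L ℂ) := (algebraMap L ℂ).injective
  have hmem : ∀ β ∈ Helper19.Disc.roots P L, algebraMap L ℂ β ∈ croots (frob q h) := by
    intro β hβ
    rw [hroots]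
    exact mem_image_of_mem _ hβ
  have hqL : ∀ β : L, algebraMap L ℂ (((q : ℤ) : L) / β) = (q : ℂ) / algebraMap L ℂ β := by
    intro β
    rw [map_div₀, map_intCast]
    norm_cast
  -- complex conjugation
  have hnorm : Normal ℚ L := inferInstance
  let conj : ℂ ≃ₐ[ℚ] ℂ := Complex.conjAe.restrictScalars ℚ
  let σ₀ : L ≃ₐ[ℚ] L := conj.restrictNormal L
  have hσ₀ : ∀ β ∈ Helper19.Disc.roots P L, σ₀ β = ((q : ℤ) : L) / β := by
    intro β hβ
    apply hinj
    rw [AlgEquiv.restrictNormal_commutes, hqL]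
    have h2 := hweil _ (hmem β hβ)
    have h3 : algebraMap L ℂ β ≠ 0 := by
      intro h4
      rw [h4, norm_zero] at h2
      have h5 : (q : ℝ) = 0 := by rw [← h2]; ring
      have h6 : q = 0 := by exact_mod_cast h5
      omega
    rw [eq_div_iff h3]
    show (starRingEnd ℂ) (algebraMap L ℂ β) * algebraMap L ℂ β = q
    rw [mul_comm, Complex.mul_conj, Complex.normSq_eq_norm_sq, h2]
    norm_cast
  -- the real field
  let K : IntermediateField ℚ L := IntermediateField.adjoin ℚ {a : L | aeval a h = 0}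
  have hcase : ∀ b, b ∣ h.natDegree → 2 < b →
      (∃ ℓ : ℕ, ℓ.Prime ∧ (h.map (Int.castRingHom (ZMod ℓ))).Separable ∧
        Odd (padicValInt ℓ (h.resultant (X ^ 2 - C (4 * (q : ℤ)))))) ∨
      (∃ (F : Type) (_ : Field F) (_ : Finite F) (m : ℕ), (h.map (Int.castRingHom F)).Splits ∧
        ((Helper19.Sign.weil (q : ℤ) h).map (Int.castRingHom F)).Separable ∧
        Multiset.card ((Helper19.Sign.weil (q : ℤ) h).map (Int.castRingHom F)).roots + 2 * m =
          2 * h.natDegree ∧ ¬ b ∣ m) ∨
      2 ^ (h.natDegree / b) < Module.finrank K L ∨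
      ((∃ (v : L → ℚ) (ρ : ℚ), ρ ≠ 0 ∧
        (∀ x y : L, x ≠ 0 → y ≠ 0 → v (x * y) = v x + v y) ∧
        ∀ β ∈ Helper19.Disc.roots P L, padicNorm 2 (v β - v ((q : ℤ) : L) / 2) = ρ) ∧
        (b.Prime ∨ ((∃ k, b = 2 ^ k) ∧
          ¬ IsSquare ((h.resultant (X ^ 2 - C (4 * (q : ℤ))) : ℤ) : ℚ)))) := by
    intro b hbg h2b
    rcases hb b hbg h2b with h3 | h3 | h3 | ⟨⟨v, ρ, hρ, hv, hvρ⟩, h3⟩
    · exact Or.inl h3
    · exact Or.inr (Or.inl h3)
    · refine Or.inr (Or.inr (Or.inl ?_))
      -- degrees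
      have e1 : Module.finrank ℚ (IntermediateField.adjoin ℚ ((frob q h).rootSet ℂ)) =
          Module.finrank ℚ L := by
        have : (frob q h).rootSet ℂ = P.rootSet ℂ := by
          ext z
          rw [mem_rootSet, mem_rootSet, hP, Helper19.Sign.qw, aeval_def, aeval_def, eval₂_map]
          refine and_congr ?_ ?_
          · exact ⟨fun _ => h1.ne_zero, fun _ => hfm.ne_zero⟩
          · rfl
        rw [this]
      have e2 : Module.finrank ℚ (IntermediateField.adjoin ℚ (h.rootSet ℂ)) =
          Module.finrank ℚ K := by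
        let f : L →ₐ[ℚ] ℂ := (algebraMap L ℂ).toRatAlgHom
        have hlift : K.map f = IntermediateField.adjoin ℚ (h.rootSet ℂ) := by
          rw [IntermediateField.adjoin_map]
          congr 1
          ext z
          rw [Set.mem_image, mem_rootSet]
          constructor
          · rintro ⟨a, ha, rfl⟩
            refine ⟨hm.ne_zero, ?_⟩
            have h4 : aeval (algebraMap L ℂ a) h = algebraMap L ℂ (aeval a h) :=
              aeval_algebraMap_apply ℂ a h
            rw [show aeval a h = 0 from ha, map_zero] at h4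
            exact h4
          · rintro ⟨-, hz⟩
            have h4 : ((h.map (Int.castRingHom L)).roots.map (algebraMap L ℂ)) =
                (h.map (Int.castRingHom ℂ)).roots := by
              rw [← (Helper19.Sign.traces_eq hm h1 hsL).2.roots_map, Polynomial.map_map]
              congr 2
            have h5 : z ∈ (h.map (Int.castRingHom ℂ)).roots := by
              rw [mem_roots (hm.map _).ne_zero, IsRoot.def, eval_map]
              rw [aeval_def] at hz
              exact hz
            rw [← h4, Multiset.mem_map] at h5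
            obtain ⟨a, ha, rfl⟩ := h5
            refine ⟨a, ?_, rfl⟩
            rw [mem_roots (hm.map _).ne_zero, IsRoot.def, eval_map] at ha
            show aeval a h = 0
            rw [aeval_def]
            exact ha
        rw [← hlift]
        exact (IntermediateField.equivMap K f).toLinearEquiv.finrank_eq.symm
      have h3' : 2 ^ (h.natDegree / b) * Module.finrank ℚ K < Module.finrank ℚ L := by
        rw [← e1, ← e2, ← splitF_eq hm.ne_zero, ← splitF_eq hfm.ne_zero]; exact h3
      rw [← Module.finrank_mul_finrank ℚ K L, mul_comm] at h3'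
      exact lt_of_mul_lt_mul_left h3' (Nat.zero_le _)
    · refine Or.inr (Or.inr (Or.inr ⟨⟨fun x => v (algebraMap L ℂ x), ρ, hρ, ?_, ?_⟩, ?_⟩))
      · intro x y hx hy
        show v (algebraMap L ℂ (x * y)) = _
        rw [map_mul]
        exact hv _ _ ((_root_.map_ne_zero _).2 hx) ((_root_.map_ne_zero _).2 hy)
      · intro β hβ
        have h4 := hvρ _ (hmem β hβ)
        show padicNorm 2 (v (algebraMap L ℂ β) - v (algebraMap L ℂ ((q : ℤ) : L)) / 2) = ρ
        rw [map_intCast]
        exact_mod_cast h4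
      · rcases h3 with h3 | ⟨h3, h4⟩
        · exact Or.inl h3
        · refine Or.inr ⟨h3, ?_⟩
          rw [Rat.isSquare_intCast_iff]
          exact h4
  have habsL : ∀ β ∈ Helper19.Disc.roots P L, ∀ β' ∈ Helper19.Disc.roots P L, ∀ k : ℕ, 0 < k →
      β ^ k = β' ^ k → β = β' := by
    intro β hβ β' hβ' k hk hkk
    apply hinj
    refine habs _ (hmem β hβ) _ (hmem β' hβ') k hk ?_
    rw [← map_pow, ← map_pow, hkk]
  rw [hroots] at hrel ⊢
  have hprod : ∏ z ∈ (Helper19.Disc.roots P L).image (algebraMap L ℂ), z ^ n z =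
      algebraMap L ℂ (∏ b ∈ Helper19.Disc.roots P L, b ^ n (algebraMap L ℂ b)) := by
    rw [Finset.prod_image fun a _ b _ hab => hinj hab, map_prod]
    exact Finset.prod_congr rfl fun b _ => (map_zpow₀ (algebraMap L ℂ) b _).symm
  rw [hprod, ← map_pow] at hrel
  have h3 : (∏ b ∈ Helper19.Disc.roots P L, b ^ n (algebraMap L ℂ b)) ^ N = algebraMap ℚ L r := by
    apply hinj
    rw [hrel, ← IsScalarTower.algebraMap_apply ℚ L ℂ]
    rfl
  have hfin := Helper19.Sign.theoremD L (q : ℤ) (by omega) h hm h1 habsL σ₀ hσ₀ K rfl hcase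
    (fun b => n (algebraMap L ℂ b)) N hN r h3
  intro z hz
  obtain ⟨b, hb', rfl⟩ := Finset.mem_image.1 hz
  have h4 := hfin b hb'
  rw [h4, hqL]

end Pool.Agent.Helper19.SC
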