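import Pool.Agent.Helper19.AAR.SC

/-!
# Sign codes: the field of the roots is larger than the field of the traces
-/

open Polynomial Finset

namespace Pool.Agent.Helper19.SC

open Pool.Agent.Helper19.AAR (splitF)

theorem frob_eval (q : ℕ) (h : ℤ[X]) (hm : h.Monic) (x : ℂ) (hx : x ≠ 0) :
    ((frob q h).map (Int.castRingHom ℂ)).eval x =
      x ^ h.natDegree * (h.map (Int.castRingHom ℂ)).eval (x + q / x) := by
  have h1 : (h.map (Int.castRingHom ℂ)).natDegree = h.natDegree := hm.natDegree_map _
  have h2 := Helper19.Sign.weil_map (Int.castRingHom ℂ) (q : ℤ) h h1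
  have h3 : (frob q h).map (Int.castRingHom ℂ) =
      Helper19.Sign.weil ((Int.castRingHom ℂ) (q : ℤ)) (h.map (Int.castRingHom ℂ)) := h2
  rw [h3, Helper19.Sign.eval_weil _ _ _ hx, h1]
  simp

theorem mem_croots {P : ℤ[X]} (hP : P ≠ 0) {z : ℂ} : z ∈ croots P ↔ aeval z P = 0 := by
  have h0 : P.map (Int.castRingHom ℂ) ≠ 0 :=
    (Polynomial.map_ne_zero_iff (Int.castRingHom ℂ).injective_int).2 hP
  rw [croots, Multiset.mem_toFinset, mem_roots h0, IsRoot.def, eval_map, aeval_def]
  rfl

theorem exists_root (q : ℕ) (h : ℤ[X]) (hq : 0 < q) (hm : h.Monic) (hf : frob q h ≠ 0) (z : ℂ)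
    (hz : aeval z h = 0) : ∃ β ∈ croots (frob q h), β ≠ 0 ∧ β + q / β = z := by
  have hdeg : (X ^ 2 - C z * X + C (q : ℂ) : ℂ[X]).degree ≠ 0 := by
    have : (X ^ 2 - C z * X + C (q : ℂ) : ℂ[X]).degree = 2 := by compute_degree!
    rw [this]
    decide
  obtain ⟨β, hβ⟩ := IsAlgClosed.exists_root _ hdeg
  rw [IsRoot.def] at hβ
  simp only [eval_add, eval_sub, eval_pow, eval_X, eval_mul, eval_C] at hβ
  have hq0 : (q : ℂ) ≠ 0 := by exact_mod_cast hq.ne'
  have hβ0 : β ≠ 0 := by
    rintro rfl
    apply hq0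
    rw [← hβ]; ring
  have hβz : β + q / β = z := by
    field_simp
    linear_combination hβ
  refine ⟨β, ?_, hβ0, hβz⟩
  rw [mem_croots hf]
  have h1 := frob_eval q h hm β hβ0
  rw [hβz] at h1
  have h2 : (h.map (Int.castRingHom ℂ)).eval z = 0 := by
    rw [eval_map]
    rw [aeval_def] at hz
    exact hz
  rw [h2, mul_zero, eval_map] at h1
  rw [aeval_def]
  exact h1

theorem finrank_lt (q : ℕ) (h : ℤ[X]) (hq : 0 < q) (hm : h.Monic)
    (hirr : Irreducible (frob q h)) (hweil : ∀ z ∈ croots (frob q h), ‖z‖ ^ 2 = q)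
    (habs : ∀ z ∈ croots (frob q h), ∀ z' ∈ croots (frob q h), ∀ k : ℕ, 0 < k →
      z ^ k = z' ^ k → z = z') :
    Module.finrank ℚ (splitF h) < Module.finrank ℚ (splitF (frob q h)) := by
  classical
  have hfm : (frob q h).Monic := (Helper19.Sign.weil_monic (q : ℤ) h hm).1
  have hfd : (frob q h).natDegree = 2 * h.natDegree := (Helper19.Sign.weil_monic (q : ℤ) h hm).2
  have hf0 : frob q h ≠ 0 := hfm.ne_zero
  set P : ℚ[X] := Helper19.Sign.qw (q : ℤ) h with hP
  have h1 : Irreducible P := (hfm.irreducible_iff_irreducible_map_fraction_map (K := ℚ)).1 hirr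
  have hqC : (q : ℂ) ≠ 0 := by exact_mod_cast hq.ne'
  -- finite dimension
  have hfin : FiniteDimensional ℚ (splitF (frob q h)) := by
    have h2 : splitF (frob q h) = IntermediateField.adjoin ℚ (P.rootSet ℂ) := by
      rw [splitF_eq hf0]
      congr 1
      ext z
      rw [mem_rootSet, mem_rootSet, hP, Helper19.Sign.qw, aeval_def, aeval_def, eval₂_map]
      refine and_congr ?_ ?_
      · exact ⟨fun _ => h1.ne_zero, fun _ => hfm.ne_zero⟩
      · rfl
    rw [h2]
    have hL : P.IsSplittingField ℚ (IntermediateField.adjoin ℚ (P.rootSet ℂ)) :=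
      IntermediateField.adjoin_rootSet_isSplittingField (IsAlgClosed.splits _)
    exact IsSplittingField.finiteDimensional _ P
  -- conjugate
  have hconj : ∀ β ∈ croots (frob q h), (q : ℂ) / β = (starRingEnd ℂ) β := by
    intro β hβ
    have h2 := hweil β hβ
    have h3 : β ≠ 0 := by
      intro h4
      rw [h4, norm_zero] at h2
      have h5 : (q : ℝ) = 0 := by rw [← h2]; ring
      have h6 : q = 0 := by exact_mod_cast h5
      omega
    rw [div_eq_iff h3, mul_comm, Complex.mul_conj, Complex.normSq_eq_norm_sq, h2]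
    norm_cast
  have hle : splitF h ≤ splitF (frob q h) := by
    rw [splitF, IntermediateField.adjoin_le_iff]
    intro z hz
    obtain ⟨β, hβ, -, rfl⟩ := exists_root q h hq hm hf0 z hz
    have h2 : β ∈ splitF (frob q h) :=
      IntermediateField.subset_adjoin _ _ ((mem_croots hf0).1 hβ)
    exact add_mem h2 (div_mem (natCast_mem _ q) h2)
  have hreal : splitF h ≤ (IsScalarTower.toAlgHom ℚ ℝ ℂ).fieldRange := by
    rw [splitF, IntermediateField.adjoin_le_iff]
    intro z hz
    obtain ⟨β, hβ, -, rfl⟩ := exists_root q h hq hm hf0 z hz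
    rw [hconj β hβ, Complex.add_conj]
    exact ⟨2 * β.re, by simp⟩
  by_contra hlt
  have heq : splitF h = splitF (frob q h) :=
    IntermediateField.eq_of_le_of_finrank_le hle (not_lt.1 hlt)
  have hsq : ∀ β ∈ croots (frob q h), β ^ 2 = q := by
    intro β hβ
    have h2 : β ∈ splitF h := by
      rw [heq]
      exact IntermediateField.subset_adjoin _ _ ((mem_croots hf0).1 hβ)
    obtain ⟨x, hx⟩ := hreal h2
    have hx' : (x : ℂ) = β := hx
    have h3 := hweil β hβ
    rw [← hx', Complex.norm_real, Real.norm_eq_abs, sq_abs] at h3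
    rw [← hx']
    exact_mod_cast h3
  have hcard : (croots (frob q h)).card = (frob q h).natDegree := by
    have h2 : (croots (frob q h)) = (P.map (algebraMap ℚ ℂ)).roots.toFinset := by
      rw [croots, hP, Helper19.Sign.qw, Polynomial.map_map]
      congr 3
    rw [h2, Multiset.toFinset_card_of_nodup (nodup_roots h1.separable.map),
      ← (IsAlgClosed.splits (P.map (algebraMap ℚ ℂ))).natDegree_eq_card_roots, natDegree_map, hP,
      Helper19.Sign.qw, natDegree_map_eq_of_injective (Int.castRingHom ℚ).injective_int]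
    rfl
  have hpos : 0 < (frob q h).natDegree := by
    have h2 := h1.natDegree_pos
    rw [hP, Helper19.Sign.qw, natDegree_map_eq_of_injective (Int.castRingHom ℚ).injective_int] at h2
    exact h2
  have hone : (croots (frob q h)).card ≤ 1 := by
    rw [Finset.card_le_one]
    intro a ha b hb
    exact habs a ha b hb 2 two_pos (by rw [hsq a ha, hsq b hb])
  omega

end Pool.Agent.Helper19.SC
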