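import Pool.Agent.Helper19.AAR.CoreRel
import Pool.Agent.Helper19.AAR.Good

/-!
# AAR: from relations over the rational numbers to relations over number fields
-/

open Polynomial Finset

namespace Pool.Agent.Helper19.AAR

open Pool.Agent.Helper19.Sign (qw weil weil_monic irreducible_qw InCore mem_qw qw_root_ne_zero
  traces traces_eq)
open Pool.Agent.Helper19.Disc (roots Rt mem_roots' stab_roots roots_map_eq exists_conj)

theorem mem_fixing {L : Type} [Field L] [NumberField L] [IsGalois ℚ L] (f : ℤ[X])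
    (σ : L ≃ₐ[ℚ] L) :
    σ ∈ (IntermediateField.adjoin ℚ {z : L | aeval z f = 0}).fixingSubgroup ↔
      ∀ z : L, aeval z f = 0 → σ z = z := by
  set A : IntermediateField ℚ L := IntermediateField.adjoin ℚ {z : L | aeval z f = 0} with hA
  rw [IntermediateField.mem_fixingSubgroup_iff]
  constructor
  · intro h2 z hz
    exact h2 z (IntermediateField.subset_adjoin _ _ hz)
  · intro h2
    have h3 : A ≤ IntermediateField.fixedField (Subgroup.zpowers σ) := by
      rw [hA, IntermediateField.adjoin_le_iff]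
      intro z hz
      rw [SetLike.mem_coe, IntermediateField.mem_fixedField_iff]
      intro τ hτ
      have h5 : σ ∈ MulAction.stabilizer (L ≃ₐ[ℚ] L) z := h2 z hz
      exact (Subgroup.zpowers_le.2 h5) hτ
    intro x hx
    exact (IntermediateField.mem_fixedField_iff _ _).1 (h3 hx) σ (Subgroup.mem_zpowers σ)

/-- The set of the complex roots. -/
noncomputable def crt (P : ℤ[X]) : Finset ℂ := (P.map (Int.castRingHom ℂ)).roots.toFinset

theorem sign_rel (q : ℕ) (h : ℤ[X]) (hq : 0 < q) (hm : h.Monic) (hirr : Irreducible (weil (q : ℤ) h))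
    (R0 : ∀ (n : ℂ → ℤ) (N : ℕ), N ≠ 0 → (∏ z ∈ crt (weil (q : ℤ) h), z ^ n z) ^ N = 1 →
      ∀ z ∈ crt (weil (q : ℤ) h), n z = n (q / z))
    (f : ℤ[X]) (hf : f ≠ 0)
    (hdeg : Module.finrank ℚ (splitF f) * Module.finrank ℚ (splitF h) <
      Module.finrank ℚ (splitF (weil (q : ℤ) h)))
    (n : ℂ → ℤ) (N : ℕ) (hN : N ≠ 0)
    (hrel : (∏ z ∈ crt (weil (q : ℤ) h), z ^ n z) ^ N ∈ splitF f) :
    ∀ z ∈ crt (weil (q : ℤ) h), n z = n (q / z) := by
  classical
  have hq0 : (q : ℤ) ≠ 0 := by omega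
  have hfm : (weil (q : ℤ) h).Monic := (weil_monic (q : ℤ) h hm).1
  have h1 : Irreducible (qw (q : ℤ) h) :=
    (hfm.irreducible_iff_irreducible_map_fraction_map (K := ℚ)).1 hirr
  -- the splitting field
  set P : ℚ[X] := qw (q : ℤ) h * f.map (Int.castRingHom ℚ) with hP
  have hf0 : f.map (Int.castRingHom ℚ) ≠ 0 :=
    (Polynomial.map_ne_zero_iff (Int.castRingHom ℚ).injective_int).2 hf
  have hP0 : P ≠ 0 := mul_ne_zero h1.ne_zero hf0
  have hsC : (P.map (algebraMap ℚ ℂ)).Splits := IsAlgClosed.splits _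
  let L : IntermediateField ℚ ℂ := IntermediateField.adjoin ℚ (P.rootSet ℂ)
  have hL : P.IsSplittingField ℚ L := IntermediateField.adjoin_rootSet_isSplittingField hsC
  have : FiniteDimensional ℚ L := IsSplittingField.finiteDimensional L P
  have : NumberField L := { }
  have hnorm : Normal ℚ L := Normal.of_isSplittingField P
  have : IsGalois ℚ L := { }
  have hsP : (P.map (algebraMap ℚ L)).Splits := IsSplittingField.splits L P
  have hsL : ((qw (q : ℤ) h).map (algebraMap ℚ L)).Splits := by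
    refine Splits.of_dvd hsP ?_ (Polynomial.map_dvd _ (dvd_mul_right _ _))
    exact (Polynomial.map_ne_zero_iff (algebraMap ℚ L).injective).2 hP0
  have hmapC : (weil (q : ℤ) h).map (Int.castRingHom ℂ) =
      ((qw (q : ℤ) h).map (algebraMap ℚ L)).map (algebraMap L ℂ) := by
    rw [Polynomial.map_map, qw, Polynomial.map_map]
    congr 1
  have hroots : crt (weil (q : ℤ) h) = (roots (qw (q : ℤ) h) L).image (algebraMap L ℂ) := by
    rw [crt, hmapC, hsL.roots_map]
    ext z
    rw [Multiset.mem_toFinset, Multiset.mem_map, Finset.mem_image]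
    constructor
    · rintro ⟨b, hb, rfl⟩
      refine ⟨b, ?_, rfl⟩
      rw [mem_roots' h1.ne_zero]
      rw [mem_roots (Polynomial.map_ne_zero h1.ne_zero), IsRoot.def, eval_map_algebraMap] at hb
      exact hb
    · rintro ⟨b, hb, rfl⟩
      refine ⟨b, ?_, rfl⟩
      rw [mem_roots' h1.ne_zero] at hb
      rw [mem_roots (Polynomial.map_ne_zero h1.ne_zero), IsRoot.def, eval_map_algebraMap]
      exact hb
  have hinj : Function.Injective (algebraMap L ℂ) := (algebraMap L ℂ).injective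
  have hprod : ∀ n : ℂ → ℤ, ∏ z ∈ (roots (qw (q : ℤ) h) L).image (algebraMap L ℂ), z ^ n z =
      algebraMap L ℂ (∏ b ∈ roots (qw (q : ℤ) h) L, b ^ n (algebraMap L ℂ b)) := by
    intro n
    rw [Finset.prod_image fun a _ b _ hab => hinj hab, map_prod]
    exact Finset.prod_congr rfl fun b _ => (map_zpow₀ (algebraMap L ℂ) b _).symm
  have hψP : ∀ z : ℂ, aeval z P = 0 → ∃ y : L, algebraMap L ℂ y = z := by
    intro z hz
    have hzL : z ∈ L := by
      apply IntermediateField.subset_adjoin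
      rw [mem_rootSet]
      exact ⟨hP0, hz⟩
    exact ⟨⟨z, hzL⟩, rfl⟩
  have hint : (algebraMap ℚ ℂ).comp (Int.castRingHom ℚ) = algebraMap ℤ ℂ := Subsingleton.elim _ _
  have hψf : ∀ z : ℂ, aeval z f = 0 → ∃ y : L, algebraMap L ℂ y = z := by
    intro z hz
    refine hψP z ?_
    rw [hP, map_mul]
    refine mul_eq_zero_of_right _ ?_
    rw [aeval_def, eval₂_map, hint, ← aeval_def, hz]
  have hψw : ∀ z : ℂ, aeval z (weil (q : ℤ) h) = 0 → ∃ y : L, algebraMap L ℂ y = z := by
    intro z hz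
    refine hψP z ?_
    rw [hP, map_mul]
    refine mul_eq_zero_of_left ?_ _
    rw [qw, aeval_def, eval₂_map, hint, ← aeval_def, hz]
  have htrC : (h.map (Int.castRingHom L)).Splits := (traces_eq hm h1 hsL).2
  have hψh : ∀ z : ℂ, aeval z h = 0 → ∃ y : L, algebraMap L ℂ y = z := by
    intro z hz
    have h4 : ((h.map (Int.castRingHom L)).roots.map (algebraMap L ℂ)) =
        (h.map (Int.castRingHom ℂ)).roots := by
      rw [← htrC.roots_map, Polynomial.map_map]
      congr 2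
    have h5 : z ∈ (h.map (Int.castRingHom ℂ)).roots := by
      rw [mem_roots (hm.map _).ne_zero, IsRoot.def, eval_map]
      rw [aeval_def] at hz
      exact hz
    rw [← h4, Multiset.mem_map] at h5
    obtain ⟨a, _, rfl⟩ := h5
    exact ⟨a, rfl⟩
  obtain ⟨hfinf, hmemA⟩ := field_aux L (algebraMap L ℂ) f hψf
  obtain ⟨hfinh, -⟩ := field_aux L (algebraMap L ℂ) h hψh
  obtain ⟨hfinw, -⟩ := field_aux L (algebraMap L ℂ) (weil (q : ℤ) h) hψw
  obtain ⟨H, hnor, hidx, hfixA⟩ := fixing_aux L f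
  set C : Subgroup (L ≃ₐ[ℚ] L) :=
    (IntermediateField.adjoin ℚ {z : L | aeval z h = 0}).fixingSubgroup with hC
  set D : Subgroup (L ≃ₐ[ℚ] L) :=
    (IntermediateField.adjoin ℚ {z : L | aeval z (weil (q : ℤ) h) = 0}).fixingSubgroup with hD
  have hidxC : C.index = Module.finrank ℚ (splitF h) := by
    rw [← hfinh]
    exact (IntermediateField.finrank_eq_fixingSubgroup_index
      (L := IntermediateField.adjoin ℚ {z : L | aeval z h = 0})).symm
  have hidxD : D.index = Module.finrank ℚ (splitF (weil (q : ℤ) h)) := by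
    rw [← hfinw]
    exact (IntermediateField.finrank_eq_fixingSubgroup_index
      (L := IntermediateField.adjoin ℚ {z : L | aeval z (weil (q : ℤ) h) = 0})).symm
  rw [hfinf] at hidx
  rw [hroots, hprod, ← map_pow] at hrel
  -- the action
  have hPne : qw (q : ℤ) h ≠ 0 := h1.ne_zero
  let S : Type := Rt L (qw (q : ℤ) h)
  let act' : MulAction (L ≃ₐ[ℚ] L) S := Disc.actRt hPne
  have hqL : ((q : ℤ) : L) ≠ 0 := by exact_mod_cast hq0
  have hx0 : ∀ x : S, x.1 ≠ 0 := fun x => qw_root_ne_zero hm h1 x.2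
  have hsym : ∀ β ∈ roots (qw (q : ℤ) h) L, ((q : ℤ) : L) / β ∈ roots (qw (q : ℤ) h) L := by
    intro β hβ
    have h2 := qw_root_ne_zero hm h1 hβ
    rw [mem_qw hm hPne (div_ne_zero hqL h2), div_div_cancel₀ hqL, add_comm]
    exact (mem_qw hm hPne h2).1 hβ
  let ι : S → S := fun x => ⟨((q : ℤ) : L) / x.1, hsym x.1 x.2⟩
  have hι : ∀ x : S, ι (ι x) = x := by
    intro x
    apply Subtype.ext
    show ((q : ℤ) : L) / (((q : ℤ) : L) / x.1) = x.1
    rw [div_div_cancel₀ hqL]
  have hcomm : ∀ (g : L ≃ₐ[ℚ] L) (x : S), g • ι x = ι (g • x) := by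
    intro g x
    apply Subtype.ext
    show g (((q : ℤ) : L) / x.1) = ((q : ℤ) : L) / g x.1
    rw [map_div₀, map_intCast]
  have htr : ∀ x y : S, ∃ g : L ≃ₐ[ℚ] L, g • x = y := by
    intro x y
    obtain ⟨σ, hσ⟩ := exists_conj h1 x y
    exact ⟨σ, Subtype.ext hσ⟩
  have haQ : ∀ x : L, aeval x (qw (q : ℤ) h) = aeval x (weil (q : ℤ) h) := by
    intro x
    rw [qw, aeval_def, aeval_def, eval₂_map]
    congr 1
  have hCcore : ∀ σ ∈ C, InCore ι σ := by
    intro σ hσ x
    rw [hC, mem_fixing] at hσ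
    have hx := hx0 x
    have h2 := (mem_qw hm hPne hx).1 x.2
    have h3 := hσ _ h2
    rw [map_add, map_div₀, map_intCast] at h3
    have hy : σ x.1 ≠ 0 := (map_ne_zero σ).2 hx
    have h4 : (σ x.1 - x.1) * (σ x.1 - ((q : ℤ) : L) / x.1) = 0 := by
      field_simp at h3 ⊢
      linear_combination h3
    rcases mul_eq_zero.1 h4 with h5 | h5
    · exact Or.inl (Subtype.ext (sub_eq_zero.1 h5))
    · exact Or.inr (Subtype.ext (sub_eq_zero.1 h5))
  have hDfix : ∀ σ ∈ C, (∀ x : S, σ • x = x) → σ ∈ D := by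
    intro σ _ hσ
    rw [hD, mem_fixing]
    intro z hz
    have hz' : z ∈ roots (qw (q : ℤ) h) L := by
      rw [mem_roots' hPne, haQ]; exact hz
    exact congrArg Subtype.val (hσ ⟨z, hz'⟩)
  have hDC : D ≤ C := by
    intro σ hσ
    rw [hD, mem_fixing] at hσ
    rw [hC, mem_fixing]
    intro z hz
    have h4 : z ∈ (h.map (Int.castRingHom L)).roots := by
      rw [mem_roots (hm.map _).ne_zero, IsRoot.def, eval_map]
      rw [aeval_def] at hz
      have h3 : Int.castRingHom L = algebraMap ℤ L := Subsingleton.elim _ _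
      rw [h3]; exact hz
    rw [(traces_eq hm h1 hsL).1] at h4
    obtain ⟨β, hβ, rfl⟩ := mem_image.1 (show z ∈ traces (q : ℤ) h L from h4)
    have h5 : σ β = β := by
      apply hσ
      rw [← haQ]
      exact (mem_roots' hPne).1 hβ
    rw [map_add, map_div₀, map_intCast, h5]
  intro z hz
  rw [hroots] at hz
  obtain ⟨β₀, hβ₀, rfl⟩ := Finset.mem_image.1 hz
  obtain ⟨τ, hτH, hτc, hτx⟩ := exists_core_normal (G := L ≃ₐ[ℚ] L) (S := S) hι hcomm htr C D H
    hCcore hDfix hDC hnor (by rw [hidx, hidxC, hidxD]; exact hdeg) ⟨β₀, hβ₀⟩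
  have hτβ : τ β₀ = ((q : ℤ) : L) / β₀ := congrArg Subtype.val hτx
  have hβ0 : β₀ ≠ 0 := hx0 ⟨β₀, hβ₀⟩
  have hτβ' : τ (((q : ℤ) : L) / β₀) = β₀ := by
    rw [map_div₀, map_intCast, hτβ, div_div_cancel₀ hqL]
  have hinv1 : τ⁻¹ β₀ = ((q : ℤ) : L) / β₀ := by
    apply τ.injective
    rw [hτβ']
    exact τ.apply_symm_apply β₀
  have hinv2 : τ⁻¹ (((q : ℤ) : L) / β₀) = β₀ := by
    apply τ.injective
    rw [hτβ]
    exact τ.apply_symm_apply _
  set w : L := ∏ b ∈ roots (qw (q : ℤ) h) L, b ^ n (algebraMap L ℂ b) with hw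
  have hw0 : w ≠ 0 := prod_ne_zero_iff.2 fun β hβ => zpow_ne_zero _ (qw_root_ne_zero hm h1 hβ)
  have hτw : τ w = ∏ β ∈ roots (qw (q : ℤ) h) L, β ^ n (algebraMap L ℂ (τ⁻¹ β)) := by
    rw [hw, map_prod]
    refine prod_bij' (fun β _ => τ β) (fun β _ => τ⁻¹ β) (fun β hβ => stab_roots hPne τ hβ)
      (fun β hβ => stab_roots hPne τ⁻¹ hβ) (fun β _ => τ.symm_apply_apply β)
      (fun β _ => τ.apply_symm_apply β) fun β _ => ?_
    have h2 : τ⁻¹ (τ β) = β := τ.symm_apply_apply β
    rw [h2, map_zpow₀]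
  have hτwN : (τ w) ^ N = w ^ N := by
    rw [← map_pow]
    exact hfixA τ hτH _ (hmemA _ hrel)
  -- the new exponents
  let inv : ℂ → L := Function.invFun (algebraMap L ℂ)
  have hinv : ∀ β : L, inv (algebraMap L ℂ β) = β := fun β =>
    Function.leftInverse_invFun hinj β
  let n' : ℂ → ℤ := fun z => n (algebraMap L ℂ (τ⁻¹ (inv z))) - n z
  have hn' : ∀ β : L, n' (algebraMap L ℂ β) =
      n (algebraMap L ℂ (τ⁻¹ β)) - n (algebraMap L ℂ β) := by
    intro β
    show n (algebraMap L ℂ (τ⁻¹ (inv (algebraMap L ℂ β)))) - n (algebraMap L ℂ β) = _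
    rw [hinv]
  have hrel' : (∏ z ∈ crt (weil (q : ℤ) h), z ^ n' z) ^ N = 1 := by
    rw [hroots, hprod, ← map_pow]
    have h2 : ∏ b ∈ roots (qw (q : ℤ) h) L, b ^ n' (algebraMap L ℂ b) = τ w / w := by
      rw [hτw, hw, ← prod_div_distrib]
      refine prod_congr rfl fun β hβ => ?_
      rw [hn', zpow_sub₀ (qw_root_ne_zero hm h1 hβ)]
    rw [h2, div_pow, hτwN, div_self (pow_ne_zero _ hw0), map_one]
  have hz' : algebraMap L ℂ β₀ ∈ crt (weil (q : ℤ) h) := by
    rw [hroots]; exact mem_image_of_mem _ hβ₀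
  have h4 := R0 n' N hN hrel' _ hz'
  have hqC : (q : ℂ) / algebraMap L ℂ β₀ = algebraMap L ℂ (((q : ℤ) : L) / β₀) := by
    rw [map_div₀, map_intCast]
    norm_cast
  rw [hqC, hn', hn', hinv1, hinv2] at h4
  rw [hqC]
  omega

end Pool.Agent.Helper19.AAR
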